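import Pool.Agent.MP_9f28a9_al.NS.PPCalc

set_option autoImplicit false

/-!
A class of `A`-modules whose tops carry two commuting operators.
-/

namespace Pool.Agent.MP_9f28a9_al.NS

open Pool.Agent.MP_9f28a9_al Filter Polynomial

/-- The kernel of the map to the residue field. -/
abbrev mm (A k : Type) [CommRing A] [Field k] [Algebra A k] : Ideal A :=
  RingHom.ker (algebraMap A k)

/-- A residue field together with three elements of a power of the maximal ideal. -/
structure Dat (A k : Type) [CommRing A] [Field k] [Algebra A k] where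
  s : ℕ
  w₁ : A
  w₂ : A
  w₃ : A
  surj : Function.Surjective (algebraMap A k)
  h₁ : w₁ ∈ mm A k ^ s
  h₂ : w₂ ∈ mm A k ^ s
  h₃ : w₃ ∈ mm A k ^ s

variable {A k : Type} [CommRing A] [Field k] [Algebra A k]

/-- The ideal generated by the three elements and the next power of the maximal ideal. -/
def Dat.W (d : Dat A k) : Ideal A := Ideal.span {d.w₁, d.w₂, d.w₃} ⊔ mm A k ^ (d.s + 1)

lemma exists_socle {m I : Ideal A} {n : ℕ} (hI : m ^ n ≤ I) (hne : I ≠ ⊤) :
    ∃ r, r ∉ I ∧ ∀ a ∈ m, r * a ∈ I := by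
  induction n with
  | zero => exact absurd (top_le_iff.1 (by simpa using hI)) hne
  | succ n ih =>
    by_cases h : m ^ n ≤ I
    · exact ih h
    · obtain ⟨r, hr, hrI⟩ := SetLike.not_le_iff_exists.1 h
      exact ⟨r, hrI, fun a ha => hI (pow_succ m n ▸ Ideal.mul_mem_mul hr ha)⟩

lemma smul_mem_of_socle {m I : Ideal A} {r : A} (hr : ∀ a ∈ m, r * a ∈ I) {G : Type}
    [AddCommGroup G] [Module A G] {x : G} (hx : x ∈ (m • ⊤ : Submodule A G)) :
    r • x ∈ (I • ⊤ : Submodule A G) := by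
  refine Submodule.smul_induction_on hx ?_ ?_
  · intro a ha g _
    rw [← mul_smul]
    exact Submodule.smul_mem_smul (hr a ha) Submodule.mem_top
  · intro x y hx hy
    rw [smul_add]
    exact add_mem hx hy

lemma mem_sup_span_smul {I : Ideal A} {r : A} {G : Type} [AddCommGroup G] [Module A G] {x : G}
    (hx : x ∈ ((I ⊔ Ideal.span {r}) • ⊤ : Submodule A G)) :
    ∃ y ∈ (I • ⊤ : Submodule A G), ∃ z, x = y + r • z := by
  rw [Submodule.sup_smul, Submodule.mem_sup] at hx
  obtain ⟨y, hy, z, hz, rfl⟩ := hx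
  rw [Submodule.ideal_span_singleton_smul, Submodule.mem_smul_pointwise_iff_exists] at hz
  obtain ⟨z, -, rfl⟩ := hz
  exact ⟨y, hy, z, rfl⟩

lemma map_mem_smul_top {I : Ideal A} {G G' : Type} [AddCommGroup G] [Module A G]
    [AddCommGroup G'] [Module A G'] (h : G →ₗ[A] G') {x : G} (hx : x ∈ (I • ⊤ : Submodule A G)) :
    h x ∈ (I • ⊤ : Submodule A G') := by
  refine Submodule.smul_induction_on hx ?_ ?_
  · intro a ha g _
    rw [map_smul]
    exact Submodule.smul_mem_smul ha Submodule.mem_top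
  · intro x y hx hy
    rw [map_add]
    exact add_mem hx hy

/-- The two conditions on the module that do not mention the operators. -/
structure Ax (d : Dat A k) (G : Type) [AddCommGroup G] [Module A G] : Prop where
  kill : ∀ r ∈ mm A k ^ (d.s + 1), ∀ x : G, r • x = 0
  fl : ∀ I : Ideal A, d.W ≤ I → ∀ r ∉ I, ∀ x : G, r • x ∈ (I • ⊤ : Submodule A G) →
    x ∈ (mm A k • ⊤ : Submodule A G)

lemma Ax.kill' {d : Dat A k} {G : Type} [AddCommGroup G] [Module A G] (h : Ax d G) {x : G}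
    (hx : x ∈ (mm A k ^ (d.s + 1) • ⊤ : Submodule A G)) : x = 0 := by
  refine Submodule.smul_induction_on hx (fun a ha g _ => h.kill a ha g) ?_
  rintro x y rfl rfl
  exact add_zero 0

lemma Ax.smul_eq_zero {d : Dat A k} {G : Type} [AddCommGroup G] [Module A G] (h : Ax d G) {w : A}
    (hw : w ∈ mm A k ^ d.s) {x : G} (hx : x ∈ (mm A k • ⊤ : Submodule A G)) : w • x = 0 :=
  h.kill' (smul_mem_of_socle (fun _ ha => pow_succ (mm A k) d.s ▸ Ideal.mul_mem_mul hw ha) hx)

/-- A description of the top of `G` as a module over `k[X]` with a square zero operator. -/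
structure Pres (d : Dat A k) (G : Type) [AddCommGroup G] [Module A G] where
  M : Type
  [acg : AddCommGroup M]
  [mod : Module k[X] M]
  π : G →+ M
  ε : M →ₗ[k[X]] M
  ω : M →+ G
  ax : Ax d G
  π_surj : Function.Surjective π
  π_smul : ∀ (r : A) (x : G), π (r • x) = C (algebraMap A k r) • π x
  π_ker : ∀ x, π x = 0 → x ∈ (mm A k • ⊤ : Submodule A G)
  ω_inj : Function.Injective ω
  ω₁ : ∀ x, ω (π x) = d.w₁ • x
  ω₂ : ∀ x, ω ((X : k[X]) • π x) = d.w₂ • x
  ω₃ : ∀ x, ω (ε (π x)) = d.w₃ • x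
  εε : ∀ z, ε (ε z) = 0

attribute [instance] Pres.acg Pres.mod

/-- An additive map commuting with constants and with `X` is linear over `k[X]`. -/
def mkLin {M M' : Type} [AddCommGroup M] [Module k[X] M] [AddCommGroup M'] [Module k[X] M']
    (θ : M →+ M') (hC : ∀ (a : k) z, θ (C a • z) = C a • θ z)
    (hX : ∀ z, θ ((X : k[X]) • z) = (X : k[X]) • θ z) : M →ₗ[k[X]] M' where
  toFun := θ
  map_add' := θ.map_add
  map_smul' f z := by
    simp only [RingHom.id_apply]
    induction f using Polynomial.induction_on with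
    | C a => exact hC a z
    | add f g hf hg => rw [add_smul, map_add, hf, hg, add_smul]
    | monomial n a ih => rw [pow_succ', mul_left_comm, mul_smul, hX, ih, ← mul_smul]

variable {d : Dat A k} {G G' : Type} [AddCommGroup G] [Module A G] [AddCommGroup G'] [Module A G']

lemma Pres.π_eq_zero (P : Pres d G) {x : G} : P.π x = 0 ↔ x ∈ (mm A k • ⊤ : Submodule A G) := by
  refine ⟨P.π_ker x, fun hx => Submodule.smul_induction_on hx ?_ ?_⟩
  · intro a ha g _
    rw [P.π_smul, (RingHom.mem_ker).1 ha, C_0, zero_smul]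
  · intro x y hx hy
    rw [map_add, hx, hy, add_zero]

lemma Pres.X_iff (P : Pres d G) (x x' : G) :
    d.w₂ • x = d.w₁ • x' ↔ P.π x' = (X : k[X]) • P.π x := by
  rw [← P.ω₂, ← P.ω₁, P.ω_inj.eq_iff, eq_comm]

lemma Pres.ε_iff (P : Pres d G) (x x' : G) : d.w₃ • x = d.w₁ • x' ↔ P.π x' = P.ε (P.π x) := by
  rw [← P.ω₃, ← P.ω₁, P.ω_inj.eq_iff, eq_comm]

lemma Pres.ε_zero_iff (P : Pres d G) (x : G) : d.w₃ • x = 0 ↔ P.ε (P.π x) = 0 := by
  rw [← P.ω₃, map_eq_zero_iff _ P.ω_inj]

lemma Pres.inj (P : Pres d G) (x : G) (hx : d.w₁ • x = 0) : x ∈ (mm A k • ⊤ : Submodule A G) :=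
  P.π_ker x (by rwa [← P.ω₁, map_eq_zero_iff _ P.ω_inj] at hx)

lemma Pres.comm (P : Pres d G) (x : G) : ∃ u v : G, d.w₂ • x = d.w₁ • u ∧ d.w₃ • x = d.w₁ • v ∧
    d.w₃ • u = d.w₂ • v ∧ d.w₃ • v = 0 := by
  obtain ⟨u, hu⟩ := P.π_surj ((X : k[X]) • P.π x)
  obtain ⟨v, hv⟩ := P.π_surj (P.ε (P.π x))
  refine ⟨u, v, (P.X_iff _ _).2 hu, (P.ε_iff _ _).2 hv, ?_, ?_⟩
  · rw [← P.ω₃, ← P.ω₂, hu, hv, map_smul]
  · rw [P.ε_zero_iff, hv, P.εε]

/-- A module satisfying the pp axioms has a description of its top. -/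
theorem exists_pres (hax : Ax d G)
    (hinj : ∀ x : G, d.w₁ • x = 0 → x ∈ (mm A k • ⊤ : Submodule A G))
    (hcomm : ∀ x : G, ∃ u v : G, d.w₂ • x = d.w₁ • u ∧ d.w₃ • x = d.w₁ • v ∧
      d.w₃ • u = d.w₂ • v ∧ d.w₃ • v = 0) : Nonempty (Pres d G) := by
  let L : Submodule A G := mm A k • ⊤
  let om : ∀ w ∈ mm A k ^ d.s, (G ⧸ L) →ₗ[A] G := fun w hw =>
    L.liftQ (w • LinearMap.id) (fun x hx => LinearMap.mem_ker.2 (hax.smul_eq_zero hw hx))
  have hωinj : Function.Injective (om d.w₁ d.h₁) := by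
    rw [injective_iff_map_eq_zero]
    intro z hz
    obtain ⟨x, rfl⟩ := L.mkQ_surjective z
    exact (Submodule.Quotient.mk_eq_zero L).2 (hinj x hz)
  have hop : ∀ w (hw : w ∈ mm A k ^ d.s), (∀ x : G, ∃ u : G, w • x = d.w₁ • u) →
      ∃ Y : Module.End A (G ⧸ L), ∀ z, om d.w₁ d.h₁ (Y z) = om w hw z := by
    intro w hw h
    refine ⟨(LinearEquiv.ofInjective _ hωinj).symm.toLinearMap ∘ₗ
      (om w hw).codRestrict (LinearMap.range (om d.w₁ d.h₁)) (fun z => ?_), fun z => ?_⟩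
    · obtain ⟨x, rfl⟩ := L.mkQ_surjective z
      obtain ⟨u, hu⟩ := h x
      exact ⟨L.mkQ u, hu.symm⟩
    · exact LinearEquiv.ofInjective_symm_apply (h := hωinj) _ _
  obtain ⟨Y, hY⟩ := hop d.w₂ d.h₂ fun x => let ⟨u, _, h, _⟩ := hcomm x; ⟨u, h⟩
  obtain ⟨E, hE⟩ := hop d.w₃ d.h₃ fun x => let ⟨_, v, _, h, _⟩ := hcomm x; ⟨v, h⟩
  have hkey : ∀ z, E (Y z) = Y (E z) ∧ E (E z) = 0 := by
    intro z
    obtain ⟨x, rfl⟩ := L.mkQ_surjective z
    obtain ⟨u, v, h1, h2, h3, h4⟩ := hcomm x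
    have hu : Y (L.mkQ x) = L.mkQ u := hωinj ((hY _).trans h1)
    have hv : E (L.mkQ x) = L.mkQ v := hωinj ((hE _).trans h2)
    rw [hu, hv]
    exact ⟨hωinj (by rw [hE, hY]; exact h3), hωinj (by rw [hE, map_zero]; exact h4)⟩
  let c : k →+* Module.End A (G ⧸ L) :=
    (algebraMap A k).liftOfSurjective d.surj ⟨algebraMap A _, fun a ha => by
      rw [RingHom.mem_ker]
      ext x
      exact (Submodule.Quotient.mk_eq_zero L).2 (Submodule.smul_mem_smul ha Submodule.mem_top)⟩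
  have hc : ∀ a, c (algebraMap A k a) = algebraMap A _ a := fun a =>
    RingHom.liftOfRightInverse_comp_apply _ _ _ _ a
  let Θ : k[X] →+* Module.End A (G ⧸ L) := eval₂RingHom' c Y fun a => by
    obtain ⟨a, rfl⟩ := d.surj a
    rw [hc]
    exact Algebra.commutes a Y
  let _ : Module k[X] (G ⧸ L) := Module.compHom _ Θ
  have hC : ∀ (a : A) (z : G ⧸ L), (C (algebraMap A k a)) • z = a • z := by
    intro a z
    change (eval₂ c Y (C (algebraMap A k a))) z = _
    rw [eval₂_C, hc]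
    rfl
  have hX : ∀ z : G ⧸ L, (X : k[X]) • z = Y z := by
    intro z
    change (eval₂ c Y X) z = _
    rw [eval₂_X]
  refine ⟨{
    M := G ⧸ L
    π := L.mkQ.toAddMonoidHom
    ε := mkLin E.toAddMonoidHom (fun a z => ?_) (fun z => ?_)
    ω := (om d.w₁ d.h₁).toAddMonoidHom
    ax := hax
    π_surj := L.mkQ_surjective
    π_smul := fun r x => (hC r (L.mkQ x)).symm
    π_ker := fun x hx => (Submodule.Quotient.mk_eq_zero L).1 hx
    ω_inj := hωinj
    ω₁ := fun x => rfl
    ω₂ := fun x => ?_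
    ω₃ := fun x => hE _
    εε := fun z => (hkey z).2 }⟩
  · obtain ⟨a, rfl⟩ := d.surj a
    rw [hC, hC]
    exact E.map_smul a z
  · rw [hX, hX]
    exact (hkey z).1
  · rw [hX]
    exact hY _

/-- A homomorphism induces a homomorphism of tops. -/
theorem Pres.exists_top (P : Pres d G) (P' : Pres d G') (h : G →ₗ[A] G') :
    ∃ θ : P.M →ₗ[k[X]] P'.M, (∀ z, θ (P.ε z) = P'.ε (θ z)) ∧ ∀ x, θ (P.π x) = P'.π (h x) := by
  let θ : P.M →+ P'.M := P.π.liftOfSurjective P.π_surj
    ⟨P'.π.comp h.toAddMonoidHom, fun x hx => P'.π_eq_zero.2 (map_mem_smul_top h (P.π_ker x hx))⟩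
  have hθ : ∀ x, θ (P.π x) = P'.π (h x) := fun x =>
    AddMonoidHom.liftOfRightInverse_comp_apply _ _ _ _ x
  refine ⟨mkLin θ (fun a z => ?_) (fun z => ?_), fun z => ?_, hθ⟩
  · obtain ⟨x, rfl⟩ := P.π_surj z
    obtain ⟨a, rfl⟩ := d.surj a
    rw [← P.π_smul, hθ, hθ, map_smul, P'.π_smul]
  · obtain ⟨x, rfl⟩ := P.π_surj z
    obtain ⟨u, hu⟩ := P.π_surj ((X : k[X]) • P.π x)
    rw [← hu, hθ, hθ, ← P'.X_iff, ← map_smul, ← map_smul, (P.X_iff x u).2 hu]
  · obtain ⟨x, rfl⟩ := P.π_surj z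
    obtain ⟨u, hu⟩ := P.π_surj (P.ε (P.π x))
    change θ _ = P'.ε (θ _)
    rw [← hu, hθ, hθ, ← P'.ε_iff, ← map_smul, ← map_smul, (P.ε_iff x u).2 hu]

lemma finsupp_mem_smul_top {ι : Type} {I : Ideal A} {l : ι →₀ A} (h : ∀ i, l i ∈ I) :
    l ∈ (I • ⊤ : Submodule A (ι →₀ A)) := by
  rw [← l.sum_single]
  refine Submodule.sum_mem _ fun i _ => ?_
  rw [← mul_one (l i), ← smul_eq_mul, ← Finsupp.smul_single]
  exact Submodule.smul_mem_smul (h i) Submodule.mem_top

/-- Homomorphisms of tops lift. -/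
theorem Pres.lift [IsNoetherianRing A] (P : Pres d G) (P' : Pres d G') (θ : P.M →ₗ[k[X]] P'.M)
    (hθ : ∀ z, θ (P.ε z) = P'.ε (θ z)) : ∃ h : G →ₗ[A] G', ∀ x, P'.π (h x) = θ (P.π x) := by
  classical
  let _ : Module k P.M := Module.compHom _ (C : k →+* k[X])
  have hk : ∀ (a : k) (z : P.M), a • z = C a • z := fun _ _ => rfl
  let b := Module.Basis.ofVectorSpace k P.M
  choose g hg using fun i => P.π_surj (b i)
  choose g' hg' using fun i => P'.π_surj (θ (b i))
  let σ := Finsupp.linearCombination A g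
  let τ := Finsupp.linearCombination A g'
  have hπσ : ∀ l, P.π (σ l) =
      Finsupp.linearCombination k b (l.mapRange (algebraMap A k) (map_zero _)) := by
    intro l
    induction l using Finsupp.induction_linear with
    | zero => simp
    | add l l' h h' => rw [map_add, map_add, h, h', Finsupp.mapRange_add (map_add _), map_add]
    | single i a => simp [σ, P.π_smul, hg, hk]
  have hτσ : ∀ l, P'.π (τ l) = θ (P.π (σ l)) := by
    intro l
    induction l using Finsupp.induction_linear with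
    | zero => simp
    | add l l' h h' => simp only [map_add, h, h']
    | single i a => simp [σ, τ, P.π_smul, P'.π_smul, hg, hg']
  have hsurj : Function.Surjective σ := by
    have h1 : (⊤ : Submodule A G) ≤ LinearMap.range σ ⊔ mm A k • ⊤ := by
      intro x _
      obtain ⟨l, hl⟩ := Finsupp.mapRange_surjective (algebraMap A k) (map_zero _) d.surj
        (b.repr (P.π x))
      refine Submodule.mem_sup.2 ⟨σ l, ⟨l, rfl⟩, x - σ l, P.π_ker _ ?_, by abel⟩
      rw [map_sub, hπσ, hl, b.linearCombination_repr, sub_self]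
    have h2 : ∀ n, (⊤ : Submodule A G) ≤ LinearMap.range σ ⊔ mm A k ^ n • ⊤ := by
      intro n
      induction n with
      | zero => simp
      | succ n ih =>
        refine h1.trans (sup_le le_sup_left ?_)
        refine (smul_mono_right _ ih).trans ?_
        rw [Submodule.smul_sup, pow_succ', Submodule.mul_smul]
        exact sup_le_sup_right Submodule.smul_le_right _
    intro x
    obtain ⟨y, hy, z, hz, rfl⟩ := Submodule.mem_sup.1 (h2 (d.s + 1) (Submodule.mem_top (x := x)))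
    rw [P.ax.kill' hz, add_zero]
    exact hy
  have hbase : ∀ l, σ l ∈ (mm A k • ⊤ : Submodule A G) → l ∈ (mm A k • ⊤ : Submodule A _) := by
    intro l hl
    have h1 := P.π_eq_zero.2 hl
    rw [hπσ] at h1
    have h2 := linearIndependent_iff.1 b.linearIndependent _ h1
    refine finsupp_mem_smul_top fun i => ?_
    have h3 := DFunLike.congr_fun h2 i
    rwa [Finsupp.mapRange_apply] at h3
  have hfree : ∀ I : Ideal A, d.W ≤ I → ∀ l, σ l ∈ (I • ⊤ : Submodule A G) →
      l ∈ (I • ⊤ : Submodule A _) := by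
    intro I
    induction I using WellFoundedGT.induction with
    | ind I ih =>
      intro hI l hl
      by_cases hne : I = ⊤
      · rw [hne, Submodule.top_smul]
        exact Submodule.mem_top
      obtain ⟨r, hr, hrm⟩ := exists_socle (le_sup_right.trans hI) hne
      have hlt : I < I ⊔ Ideal.span {r} :=
        lt_of_le_of_ne le_sup_left fun h =>
          hr (h ▸ Ideal.mem_sup_right (Ideal.mem_span_singleton_self r))
      obtain ⟨y, hy, z, rfl⟩ := mem_sup_span_smul
        (ih _ hlt (hI.trans le_sup_left) l (Submodule.smul_mono_left le_sup_left hl))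
      refine add_mem hy (smul_mem_of_socle hrm (hbase z (P.ax.fl I hI r hr _ ?_)))
      rw [map_add, map_smul] at hl
      exact (Submodule.add_mem_iff_right _ (map_mem_smul_top σ hy)).1 hl
  have hW : ∀ r ∈ d.W, ∀ l, ∃ z, r • σ l = P.ω z ∧ r • τ l = P'.ω (θ z) := by
    let T : Ideal A :=
      { carrier := {r | ∀ l, ∃ z, r • σ l = P.ω z ∧ r • τ l = P'.ω (θ z)}
        add_mem' := by
          intro a a' ha ha' l
          obtain ⟨z, h1, h2⟩ := ha l
          obtain ⟨z', h1', h2'⟩ := ha' l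
          exact ⟨z + z', by rw [add_smul, h1, h1', map_add],
            by rw [add_smul, h2, h2', map_add, map_add]⟩
        zero_mem' := fun l => ⟨0, by simp, by simp⟩
        smul_mem' := by
          intro a r hr l
          obtain ⟨z, h1, h2⟩ := hr (a • l)
          rw [map_smul, smul_smul, mul_comm] at h1 h2
          exact ⟨z, h1, h2⟩ }
    refine fun r hr => (sup_le (Ideal.span_le.2 ?_) ?_ : d.W ≤ T) hr
    · rintro r (rfl | rfl | rfl) l
      · exact ⟨P.π (σ l), (P.ω₁ _).symm, by rw [← hτσ, P'.ω₁]⟩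
      · exact ⟨(X : k[X]) • P.π (σ l), (P.ω₂ _).symm, by rw [map_smul, ← hτσ, P'.ω₂]⟩
      · exact ⟨P.ε (P.π (σ l)), (P.ω₃ _).symm, by rw [hθ, ← hτσ, P'.ω₃]⟩
    · intro r hr l
      exact ⟨0, by rw [P.ax.kill r hr, map_zero], by rw [P'.ax.kill r hr, map_zero, map_zero]⟩
  have hker : LinearMap.ker σ ≤ LinearMap.ker τ := by
    intro l hl
    rw [LinearMap.mem_ker] at hl ⊢
    have h1 : ∃ z, σ l = P.ω z ∧ τ l = P'.ω (θ z) := by
      refine Submodule.smul_induction_on (hfree d.W le_rfl l (hl ▸ zero_mem _)) ?_ ?_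
      · intro r hr l _
        rw [map_smul, map_smul]
        exact hW r hr l
      · rintro l l' ⟨z, h1, h2⟩ ⟨z', h1', h2'⟩
        exact ⟨z + z', by rw [map_add, h1, h1', map_add],
          by rw [map_add, h2, h2', map_add, map_add]⟩
    obtain ⟨z, h2, h3⟩ := h1
    rw [hl, eq_comm, map_eq_zero_iff _ P.ω_inj] at h2
    rw [h3, h2, map_zero, map_zero]
  refine ⟨(LinearMap.ker σ).liftQ τ hker ∘ₗ (σ.quotKerEquivOfSurjective hsurj).symm.toLinearMap,
    fun x => ?_⟩
  obtain ⟨l, rfl⟩ := hsurj x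
  rw [← hτσ]
  simp

end Pool.Agent.MP_9f28a9_al.NS
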