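import Pool.Agent.MP_9f28a9_al.NS.Maps

set_option autoImplicit false

/-!
Transfer of the properties of tops along pp inclusions, and the two core statements.
-/

namespace Pool.Agent.MP_9f28a9_al.NS

open Pool.Agent.MP_9f28a9_al Filter Polynomial

variable {A k : Type} [CommRing A] [Field k] [Algebra A k] [IsNoetherianRing A] {d : Dat A k}

variable (d) in
lemma exists_rho (f : k[X]) : ∃ ρ : Rel2 A, IsPP2 ρ ∧ ∀ (G : Type) [AddCommGroup G] [Module A G]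
    (P : Pres d G) (x x' : G), ρ G x x' ↔ P.π x' = f • P.π x := by
  induction f using Polynomial.induction_on with
  | C a =>
    obtain ⟨r, rfl⟩ := d.surj a
    refine ⟨_, (isPP1_mem (mm A k)).lin (-r) 1, fun G _ _ P x x' => ?_⟩
    rw [← P.π_eq_zero, one_smul, neg_smul, map_add, map_neg, P.π_smul, neg_add_eq_zero, eq_comm]
  | add f g hf hg =>
    obtain ⟨ρ₁, h₁, hf⟩ := hf
    obtain ⟨ρ₂, h₂, hg⟩ := hg
    refine ⟨_, h₁.add h₂, fun G _ _ P x x' => ?_⟩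
    simp only [hf G P, hg G P, map_sub, add_smul]
    constructor
    · rintro ⟨u, h1, h2⟩
      rw [← h1, ← h2, add_sub_cancel]
    · intro h
      obtain ⟨u, hu⟩ := P.π_surj (f • P.π x)
      exact ⟨u, hu, by rw [h, hu, add_sub_cancel_left]⟩
  | monomial n a ih =>
    obtain ⟨ρ, h, hf⟩ := ih
    refine ⟨_, h.comp (isPP2_eqn d.w₂ d.w₁), fun G _ _ P x x' => ?_⟩
    simp only [hf G P, P.X_iff]
    rw [pow_succ', mul_left_comm, mul_smul X]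
    constructor
    · rintro ⟨u, h1, h2⟩
      rw [h2, h1]
    · intro h
      obtain ⟨u, hu⟩ := P.π_surj ((C a * X ^ n) • P.π x)
      exact ⟨u, hu, by rw [h, hu]⟩

variable {J : Type} {F : Filter J} {N : J → Type} [∀ j, AddCommGroup (N j)] [∀ j, Module A (N j)]
  {G : Type} [AddCommGroup G] [Module A G]

lemma Tr.pres (h : Tr (S := A) F N G) (P : ∀ j, Pres d (N j)) : Nonempty (Pres d G) := by
  refine exists_pres ⟨fun r hr x => ?_, fun I hI r hr x hx => ?_⟩ (fun x hx => ?_) fun x => ?_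
  · exact h.imp isPP1_true (isPP1_ann r) (.of_forall fun j y _ => (P j).ax.kill r hr y) x trivial
  · exact h.imp ((isPP1_mem I).smul r) (isPP1_mem _)
      (.of_forall fun j y hy => (P j).ax.fl I hI r hr y hy) x hx
  · exact h.imp (isPP1_ann d.w₁) (isPP1_mem _) (.of_forall fun j y hy => (P j).inj y hy) x hx
  · have h1 := (((isPP2_eqn d.w₂ d.w₁).comp (isPP2_eqn d.w₃ 1)).and
      ((isPP2_eqn d.w₃ d.w₁).comp
        ((isPP2_eqn d.w₂ 1).and ((isPP1_ann d.w₃).lin 1 0)))).dom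
    obtain ⟨z, ⟨u, h2, h3⟩, v, h4, h5, h6⟩ := h.imp isPP1_true h1 (.of_forall fun j y _ => by
      obtain ⟨u, v, h2, h3, h4, h5⟩ := (P j).comm y
      exact ⟨d.w₃ • u, ⟨u, h2, (one_smul _ _).symm⟩, v, h3, by rw [one_smul, h4],
        by simpa using h5⟩) x trivial
    exact ⟨u, v, h2, h4, h3.trans h5.symm, by simpa using h6⟩

lemma Tr.tf (h : Tr (S := A) F N G) (P : ∀ j, Pres d (N j)) (Q : Pres d G) (f : k[X])
    (hf : ∀ᶠ j in F, ∀ z : (P j).M, f • z = 0 → z = 0) (z : Q.M) (hz : f • z = 0) : z = 0 := by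
  obtain ⟨ρ, hρ, hρ'⟩ := exists_rho d f
  obtain ⟨x, rfl⟩ := Q.π_surj z
  refine Q.π_eq_zero.2 (h.imp (hρ.comp (isPP2_eqn 1 0)).dom (isPP1_mem _)
    (hf.mono fun j hj y hy => ?_) x ⟨0, 0, (hρ' G Q _ _).2 (by rw [hz, map_zero]), by simp⟩)
  obtain ⟨_, u, h1, h2⟩ := hy
  rw [one_smul, zero_smul] at h2
  rw [h2, hρ' _ (P j), map_zero] at h1
  exact (P j).π_ker _ (hj _ h1.symm)

lemma Tr.surj (h : Tr (S := A) F N G) (P : ∀ j, Pres d (N j)) (Q : Pres d G) (f : k[X])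
    (hf : ∀ᶠ j in F, ∀ z : (P j).M, ∃ z', f • z' = z) (z : Q.M) : ∃ z', f • z' = z := by
  obtain ⟨ρ, hρ, hρ'⟩ := exists_rho d f
  obtain ⟨x, rfl⟩ := Q.π_surj z
  obtain ⟨u, hu⟩ := h.imp isPP1_true hρ.swap.dom (hf.mono fun j hj y _ => by
    obtain ⟨z', hz'⟩ := hj ((P j).π y)
    obtain ⟨u, rfl⟩ := (P j).π_surj z'
    exact ⟨u, (hρ' _ (P j) _ _).2 hz'.symm⟩) x trivial
  exact ⟨_, ((hρ' G Q _ _).1 hu).symm⟩

lemma Tr.kerdiv (h : Tr (S := A) F N G) (P : ∀ j, Pres d (N j)) (Q : Pres d G) (f : k[X])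
    (hf : ∀ᶠ j in F, ∀ z : (P j).M, (P j).ε z = 0 → ∃ z', (P j).ε z' = 0 ∧ f • z' = z)
    (z : Q.M) (hz : Q.ε z = 0) : ∃ z', Q.ε z' = 0 ∧ f • z' = z := by
  obtain ⟨ρ, hρ, hρ'⟩ := exists_rho d f
  obtain ⟨x, rfl⟩ := Q.π_surj z
  obtain ⟨u, h1, h2⟩ := h.imp (isPP1_ann d.w₃) (hρ.swap.and ((isPP1_ann d.w₃).lin 0 1)).dom
    (hf.mono fun j hj y hy => by
      obtain ⟨z', h1, h2⟩ := hj ((P j).π y) (((P j).ε_zero_iff y).1 hy)
      obtain ⟨u, rfl⟩ := (P j).π_surj z'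
      exact ⟨u, (hρ' _ (P j) _ _).2 h2.symm, by simpa using ((P j).ε_zero_iff u).2 h1⟩)
    x ((Q.ε_zero_iff x).2 hz)
  exact ⟨_, (Q.ε_zero_iff u).1 (by simpa using h2), ((hρ' G Q _ _).1 h1).symm⟩

/-- The properties of the top of a single point that are used for irreducibility. -/
structure GoodTop (M : Type) [AddCommGroup M] [Module k[X] M] (ε : M →ₗ[k[X]] M) : Prop where
  tf : ∀ f : k[X], f ≠ 0 → ∀ z : M, f • z = 0 → z = 0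
  kerdiv : ∀ f : k[X], f ≠ 0 → ∀ z : M, ε z = 0 → ∃ z', ε z' = 0 ∧ f • z' = z
  seq : ∃ a b : ℕ → M, (∀ n, ε (a n) ≠ 0) ∧ (∀ n, ε (b n) = 0) ∧ ∀ f : k[X], f ≠ 0 →
    (∀ᶠ n in atTop, ∃ z, f • z = a n) ∧ ∀ᶠ n in atTop, ∀ z, f • b n ≠ ε z

lemma GoodTop.rich {P : Pres d G} (hP : GoodTop P.M P.ε)
    (Q : Pres d (RP A atTop fun _ : ℕ => G)) : Q.Rich := by
  obtain ⟨a, b, ha, hb, hab⟩ := hP.seq
  choose a' ha' using fun n => P.π_surj (a n)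
  choose b' hb' using fun n => P.π_surj (b n)
  refine ⟨fun f hf => tr_RP.tf (fun _ => P) Q f (.of_forall fun _ => hP.tf f hf),
    fun f hf => tr_RP.kerdiv (fun _ => P) Q f (.of_forall fun _ => hP.kerdiv f hf),
    ⟨Q.π (Submodule.Quotient.mk a'), fun h => ?_, fun f hf => ?_⟩,
    ⟨Q.π (Submodule.Quotient.mk b'), ?_, fun f z h => by_contra fun hf => ?_⟩⟩
  · obtain ⟨n, hn⟩ := (((isPP1_ann d.w₃).iff_RP a').1 ((Q.ε_zero_iff _).2 h)).exists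
    exact ha n (ha' n ▸ (P.ε_zero_iff _).1 hn)
  · obtain ⟨ρ, hρ, hρ'⟩ := exists_rho d f
    obtain ⟨u, hu⟩ := (hρ.swap.dom.iff_RP (F := atTop) (N := fun _ : ℕ => G) a').2
      ((hab f hf).1.mono fun n ⟨z, hz⟩ => by
        obtain ⟨u, rfl⟩ := P.π_surj z
        exact ⟨u, (hρ' G P _ _).2 (by rw [hz, ha'])⟩)
    exact ⟨_, ((hρ' _ Q _ _).1 hu).symm⟩
  · exact (Q.ε_zero_iff _).1 (((isPP1_ann d.w₃).iff_RP b').2
      (.of_forall fun n => (P.ε_zero_iff _).2 (by rw [hb', hb])))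
  · obtain ⟨ρ, hρ, hρ'⟩ := exists_rho d f
    obtain ⟨z, rfl⟩ := Q.π_surj z
    obtain ⟨u, hu⟩ := Q.π_surj (Q.ε (Q.π z))
    have h1 := ((hρ.comp (isPP2_eqn d.w₃ d.w₁).swap).dom.iff_RP (F := atTop)
      (N := fun _ : ℕ => G) b').1 ⟨z, u, (hρ' _ Q _ _).2 (hu.trans h.symm), (Q.ε_iff _ _).2 hu⟩
    obtain ⟨n, ⟨y, v, h2, h3⟩, h4⟩ := (h1.and (hab f hf).2).exists
    exact h4 (P.π y) (by rw [← hb', ← (hρ' G P _ _).1 h2, (P.ε_iff _ _).1 h3])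

lemma Tr.gen (h : Tr (S := A) F N G) (P : ∀ j, Pres d (N j))
    (hP : ∀ j, GoodTop (P j).M (P j).ε)
    (hs : ∀ f : k[X], f ≠ 0 → ∀ᶠ j in F, ∀ z : (P j).M, ∃ z', f • z' = z) (Q : Pres d G) :
    Q.Gen :=
  ⟨fun f hf => h.tf P Q f (.of_forall fun j => (hP j).tf f hf),
    fun f hf => h.surj P Q f (hs f hf)⟩

/-- A pp inclusion that holds in one member of the family holds in almost all of them. -/
theorem core_irr (P : ∀ j, Pres d (N j)) (hP : ∀ j, GoodTop (P j).M (P j).ε)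
    (hs : ∀ f : k[X], f ≠ 0 → ∀ᶠ j in F, ∀ z : (P j).M, ∃ z', f • z' = z) (φ ψ : PP A) (j : J)
    (h : φ.sol (N j) ⊆ ψ.sol (N j)) : ∀ᶠ i in F, φ.sol (N i) ⊆ ψ.sol (N i) := by
  obtain ⟨Q⟩ := (tr_RP (S := A) (F := atTop) (N := fun _ : ℕ => N j)).pres fun _ => P j
  obtain ⟨Q'⟩ := (tr_RP (S := A) (F := F) (N := N)).pres P
  exact eventually_of_RP φ ψ ((tr_RP.gen P hP hs Q').incl ((hP j).rich Q) φ ψ
    (tr_RP φ ψ (.of_forall fun _ => h)))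

/-- A module with the pp theory of a generic point of the family is decomposable. -/
theorem core_dec (P : ∀ j, Pres d (N j)) (hP : ∀ j, GoodTop (P j).M (P j).ε)
    (hs : ∀ f : k[X], f ≠ 0 → ∀ᶠ j in F, ∀ z : (P j).M, ∃ z', f • z' = z)
    (h : Tr (S := A) F N G)
    (h' : ∀ φ ψ : PP A, φ.sol G ⊆ ψ.sol G → ∃ j, φ.sol (N j) ⊆ ψ.sol (N j)) :
    ¬ IsIndecomposable A G := by
  obtain ⟨Q⟩ := h.pres P
  have key : ∀ {Φ Ψ : Rel1 A}, IsPP1 Φ → IsPP1 Ψ → (∀ j, ∃ x, Φ (N j) x ∧ ¬ Ψ (N j) x) →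
      ∃ x, Φ G x ∧ ¬ Ψ G x := by
    rintro Φ Ψ ⟨φ, h1⟩ ⟨ψ, h2⟩ h3
    by_contra hn
    push Not at hn
    obtain ⟨j, hj⟩ := h' φ ψ fun x hx => (h2 G x).1 (hn x ((h1 G x).2 hx))
    obtain ⟨x, h4, h5⟩ := h3 j
    exact h5 ((h2 _ x).2 (hj ((h1 _ x).1 h4)))
  obtain ⟨a, -, ha⟩ := key isPP1_true (isPP1_ann d.w₃) fun j => by
    obtain ⟨a, _, ha, _⟩ := (hP j).seq
    obtain ⟨x, hx⟩ := (P j).π_surj (a 0)
    exact ⟨x, trivial, fun h => ha 0 (hx ▸ ((P j).ε_zero_iff x).1 h)⟩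
  obtain ⟨b, hb, hb'⟩ := key (isPP1_ann d.w₃) (isPP2_eqn d.w₃ d.w₁).swap.dom fun j => by
    obtain ⟨_, b, _, hb, hab⟩ := (hP j).seq
    obtain ⟨n, hn⟩ := (hab 1 one_ne_zero).2.exists
    obtain ⟨x, hx⟩ := (P j).π_surj (b n)
    refine ⟨x, ((P j).ε_zero_iff x).2 (hx ▸ hb n), fun ⟨u, hu⟩ => hn ((P j).π u) ?_⟩
    rw [one_smul, ← hx, ((P j).ε_iff _ _).1 hu]
  refine (h.gen P hP hs Q).not_indecomposable (a := Q.π a) (b := Q.π b)
    (fun h => ha ((Q.ε_zero_iff a).2 h)) ((Q.ε_zero_iff b).1 hb) fun z hz => ?_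
  obtain ⟨u, rfl⟩ := Q.π_surj z
  exact hb' ⟨u, (Q.ε_iff _ _).2 hz⟩

end Pool.Agent.MP_9f28a9_al.NS
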