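import Pool.Agent.MP_9f28a9_al.NS.LinComp

set_option autoImplicit false

/-!
Every module over `k[X]` with a square zero operator is a top.
-/

namespace Pool.Agent.MP_9f28a9_al.NS

open Pool.Agent.MP_9f28a9_al Filter Polynomial

variable {A k : Type} [CommRing A] [Field k] [Algebra A k]

lemma finsupp_apply_mem {ι : Type} {I : Ideal A} {l : ι →₀ A}
    (h : l ∈ (I • ⊤ : Submodule A (ι →₀ A))) (i : ι) : l i ∈ I := by
  simpa using map_mem_smul_top (Finsupp.lapply i : (ι →₀ A) →ₗ[A] A) h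

/-- The three elements are independent modulo the next power of the maximal ideal. -/
def Dat.Indep (d : Dat A k) : Prop :=
  ∀ a b c : A, a * d.w₁ + b * d.w₂ + c * d.w₃ ∈ mm A k ^ (d.s + 1) →
    a ∈ mm A k ∧ b ∈ mm A k ∧ c ∈ mm A k

theorem exists_cover (d : Dat A k) (hd : d.Indep) (M : Type) [AddCommGroup M] [Module k[X] M]
    (ε : M →ₗ[k[X]] M) (hε : ∀ z, ε (ε z) = 0) :
    ∃ (G : Type) (_ : AddCommGroup G) (_ : Module A G) (P : Pres d G),
      ∀ Pr : (∀ (M : Type) [AddCommGroup M] [Module k[X] M], (M →ₗ[k[X]] M) → Prop),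
        Pr M ε → Pr P.M P.ε := by
  classical
  have hmax : (mm A k).IsMaximal := RingHom.ker_isMaximal_of_surjective _ d.surj
  have hw₁ : d.w₁ ∈ mm A k := (hd d.w₂ (-d.w₁) 0 (by simp [mul_comm])).2.1 |> neg_mem_iff.1
  have hw₂ : d.w₂ ∈ mm A k := (hd d.w₂ (-d.w₁) 0 (by simp [mul_comm])).1
  have hw₃ : d.w₃ ∈ mm A k := (hd d.w₃ 0 (-d.w₁) (by simp [mul_comm])).1
  let _ : Module k M := Module.compHom _ (C : k →+* k[X])
  let _ : Module A M := Module.compHom _ (algebraMap A k)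
  have hA : ∀ (a : A) (z : M), a • z = C (algebraMap A k a) • z := fun _ _ => rfl
  let b := Module.Basis.ofVectorSpace k M
  let F := (Module.Basis.ofVectorSpaceIndex k M) →₀ A
  let π : F →ₗ[A] M := Finsupp.linearCombination A b
  have hπ : ∀ l, π l =
      Finsupp.linearCombination k b (l.mapRange (algebraMap A k) (map_zero _)) := by
    intro l
    induction l using Finsupp.induction_linear with
    | zero => simp
    | add l l' h h' => rw [map_add, h, h', Finsupp.mapRange_add (map_add _), map_add]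
    | single i a =>
      rw [Finsupp.mapRange_single, Finsupp.linearCombination_single,
        Finsupp.linearCombination_single]
      rfl
  have hsurj : Function.Surjective π := by
    intro z
    obtain ⟨l, hl⟩ := Finsupp.mapRange_surjective (algebraMap A k) (map_zero _) d.surj (b.repr z)
    exact ⟨l, by rw [hπ, hl, b.linearCombination_repr]⟩
  have hker : ∀ l, π l = 0 ↔ l ∈ (mm A k • ⊤ : Submodule A F) := by
    intro l
    constructor
    · intro h1
      rw [hπ] at h1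
      have h2 := linearIndependent_iff.1 b.linearIndependent _ h1
      refine finsupp_mem_smul_top fun i => ?_
      have h3 := DFunLike.congr_fun h2 i
      rwa [Finsupp.mapRange_apply] at h3
    · intro hl
      refine Submodule.smul_induction_on hl ?_ ?_
      · intro a ha g _
        rw [map_smul, hA, RingHom.mem_ker.1 ha, C_0, zero_smul]
      · intro x y hx hy
        rw [map_add, hx, hy, add_zero]
  have hlift : ∀ θ : M →ₗ[k[X]] M, ∃ u : F →ₗ[A] F, ∀ l, π (u l) = θ (π l) := by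
    intro θ
    let θ' : M →ₗ[A] M := ⟨θ.toAddHom, fun a z => θ.map_smul (C (algebraMap A k a)) z⟩
    obtain ⟨u, hu⟩ := Module.projective_lifting_property π (θ' ∘ₗ π) hsurj
    exact ⟨u, LinearMap.congr_fun hu⟩
  obtain ⟨Y, hY⟩ := hlift (LinearMap.lsmul k[X] M X)
  obtain ⟨E, hE⟩ := hlift ε
  let U : Submodule A F := mm A k ^ (d.s + 1) • ⊤ ⊔
    (LinearMap.range (d.w₂ • LinearMap.id - d.w₁ • Y) ⊔
      LinearMap.range (d.w₃ • LinearMap.id - d.w₁ • E))
  have hU : ∀ l ∈ U, ∃ e ∈ (mm A k ^ (d.s + 1) • ⊤ : Submodule A F), ∃ f g : F,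
      l = e + ((d.w₂ • f - d.w₁ • Y f) + (d.w₃ • g - d.w₁ • E g)) := by
    intro l hl
    obtain ⟨e, he, _, h1, rfl⟩ := Submodule.mem_sup.1 hl
    obtain ⟨_, ⟨f, rfl⟩, _, ⟨g, rfl⟩, rfl⟩ := Submodule.mem_sup.1 h1
    exact ⟨e, he, f, g, rfl⟩
  have hUI : ∀ I : Ideal A, d.w₁ ∈ I → d.w₂ ∈ I → d.w₃ ∈ I → mm A k ^ (d.s + 1) ≤ I →
      U ≤ I • ⊤ := by
    intro I h1 h2 h3 h4 l hl
    obtain ⟨e, he, f, g, rfl⟩ := hU l hl
    have := fun (r : A) (hr : r ∈ I) (x : F) =>
      Submodule.smul_mem_smul hr (Submodule.mem_top (x := x))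
    exact add_mem (Submodule.smul_mono_left h4 he)
      (add_mem (sub_mem (this _ h2 _) (this _ h1 _)) (sub_mem (this _ h3 _) (this _ h1 _)))
  have hUm : U ≤ mm A k • ⊤ := hUI _ hw₁ hw₂ hw₃ (Ideal.pow_le_self (Nat.succ_ne_zero _))
  have hpull : ∀ I : Ideal A, U ≤ I • ⊤ → ∀ l : F,
      U.mkQ l ∈ (I • ⊤ : Submodule A (F ⧸ U)) → l ∈ (I • ⊤ : Submodule A F) := by
    intro I hI l hl
    have h1 : (I • ⊤ : Submodule A (F ⧸ U)) = (I • ⊤ : Submodule A F).map U.mkQ := by
      rw [Submodule.map_smul'', Submodule.map_top, Submodule.range_mkQ]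
    rw [h1, ← Submodule.mem_comap, Submodule.comap_map_mkQ, sup_eq_right.2 hI] at hl
    exact hl
  have hax : Ax d (F ⧸ U) := by
    constructor
    · intro r hr x
      obtain ⟨l, rfl⟩ := U.mkQ_surjective x
      exact (Submodule.Quotient.mk_eq_zero U).2
        (Submodule.mem_sup_left (Submodule.smul_mem_smul hr Submodule.mem_top))
    · intro I hI r hr x hx
      obtain ⟨l, rfl⟩ := U.mkQ_surjective x
      have hs : Ideal.span {d.w₁, d.w₂, d.w₃} ≤ I := le_sup_left.trans hI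
      have h1 := hpull I (hUI I (hs (Ideal.subset_span (by simp)))
        (hs (Ideal.subset_span (by simp))) (hs (Ideal.subset_span (by simp)))
        (le_sup_right.trans hI)) (r • l) hx
      refine map_mem_smul_top U.mkQ (finsupp_mem_smul_top fun i => ?_)
      by_contra hi
      have h2 : r * l i ∈ I := finsupp_apply_mem h1 i
      have h3 : Ideal.span {l i} ⊔ mm A k ^ (d.s + 1) = ⊤ := by
        refine Ideal.sup_pow_eq_top ?_
        rw [sup_comm]
        exact hmax.out.2 _ (lt_of_le_of_ne le_sup_left fun h =>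
          hi (h ▸ Ideal.mem_sup_right (Ideal.mem_span_singleton_self _)))
      obtain ⟨_, h4, e, he, h5⟩ := Submodule.mem_sup.1 ((Ideal.eq_top_iff_one _).1 h3)
      obtain ⟨c, rfl⟩ := Ideal.mem_span_singleton'.1 h4
      refine hr ?_
      rw [show r = c * (r * l i) + r * e by linear_combination -r * h5]
      exact add_mem (I.mul_mem_left _ h2) (I.mul_mem_left _ (le_sup_right.trans hI he))
  let πq : (F ⧸ U) →ₗ[A] M := U.liftQ π fun l hl => (hker l).2 (hUm hl)
  let ω : M →+ F ⧸ U := π.toAddMonoidHom.liftOfSurjective hsurj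
    ⟨(d.w₁ • U.mkQ).toAddMonoidHom, fun l hl =>
      hax.smul_eq_zero d.h₁ (map_mem_smul_top U.mkQ ((hker l).1 hl))⟩
  have hω : ∀ l, ω (π l) = d.w₁ • U.mkQ l := fun l =>
    AddMonoidHom.liftOfRightInverse_comp_apply π.toAddMonoidHom _ _ _ l
  refine ⟨F ⧸ U, inferInstance, inferInstance, {
    M := M
    π := πq.toAddMonoidHom
    ε := ε
    ω := ω
    ax := hax
    π_surj := fun z => let ⟨l, hl⟩ := hsurj z; ⟨U.mkQ l, hl⟩
    π_smul := fun r x => πq.map_smul r x
    π_ker := fun x hx => ?_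
    ω_inj := ?_
    ω₁ := fun x => ?_
    ω₂ := fun x => ?_
    ω₃ := fun x => ?_
    εε := hε }, fun _ h => h⟩
  · obtain ⟨l, rfl⟩ := U.mkQ_surjective x
    exact map_mem_smul_top U.mkQ ((hker l).1 hx)
  · rw [injective_iff_map_eq_zero]
    intro z hz
    obtain ⟨l, rfl⟩ := hsurj z
    rw [hω, ← map_smul] at hz
    obtain ⟨e, he, f, g, h1⟩ := hU _ ((Submodule.Quotient.mk_eq_zero U).1 hz)
    have h2 : ∀ i, (l + Y f + E g) i ∈ mm A k ∧ -f i ∈ mm A k ∧ -g i ∈ mm A k := by
      intro i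
      refine hd _ _ _ ?_
      convert finsupp_apply_mem he i using 1
      have : d.w₁ * l i = e i + ((d.w₂ * f i - d.w₁ * Y f i) + (d.w₃ * g i - d.w₁ * E g i)) :=
        DFunLike.congr_fun h1 i
      change (l i + Y f i + E g i) * _ + _ + _ = _
      linear_combination this
    have h3 := (hker _).2 (finsupp_mem_smul_top fun i => (h2 i).1)
    have h4 := (hker _).2 (finsupp_mem_smul_top (l := f) fun i => neg_mem_iff.1 (h2 i).2.1)
    have h5 := (hker _).2 (finsupp_mem_smul_top (l := g) fun i => neg_mem_iff.1 (h2 i).2.2)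
    rwa [map_add, map_add, hY, hE, h4, h5, map_zero, map_zero, add_zero, add_zero] at h3
  · obtain ⟨l, rfl⟩ := U.mkQ_surjective x
    exact hω l
  · obtain ⟨l, rfl⟩ := U.mkQ_surjective x
    change ω (LinearMap.lsmul k[X] M X (π l)) = _
    rw [← hY, hω, ← map_smul, ← map_smul U.mkQ, eq_comm]
    exact (Submodule.Quotient.eq U).2 (Submodule.mem_sup_right (Submodule.mem_sup_left ⟨l, rfl⟩))
  · obtain ⟨l, rfl⟩ := U.mkQ_surjective x
    change ω (ε (π l)) = _
    rw [← hE, hω, ← map_smul, ← map_smul U.mkQ, eq_comm]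
    exact (Submodule.Quotient.eq U).2 (Submodule.mem_sup_right (Submodule.mem_sup_right ⟨l, rfl⟩))

/-- A criterion for the absence of idempotent endomorphisms. -/
lemma no_idem {D M : Type} [CommRing D] [AddCommGroup M] [Module D M] (ε : M →ₗ[D] M) (p : D)
    (tf : ∀ f : D, f ≠ 0 → ∀ z : M, f • z = 0 → z = 0)
    (hS : ∀ x, (∀ u, ε x ≠ p • ε u) → ∀ z, ∃ (f : D) (u : M), ε z = f • ε x + p • ε u)
    (hsep : ∀ x, (∀ n : ℕ, ∃ u, ε x = p ^ n • ε u) → ε x = 0)
    (htor : ∀ z, ε z = 0 → ∃ (f : D) (u : M), f ≠ 0 ∧ f • z = ε u)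
    (θ : M →ₗ[D] M) (hθ : ∀ z, θ (ε z) = ε (θ z)) (hid : ∀ z, θ (θ z) = θ z) :
    (∀ z, θ z = 0) ∨ ∀ z, θ z = z := by
  have key : ∀ θ : M →ₗ[D] M, (∀ z, θ (ε z) = ε (θ z)) → (∀ z, θ (θ z) = θ z) →
      (∀ x, ∃ u, ε (θ x) = p • ε u) → ∀ z, θ z = 0 := by
    intro θ hθ hid h
    have h1 : ∀ (n : ℕ) x, ∃ u, ε (θ x) = p ^ n • ε u := by
      intro n
      induction n with
      | zero => exact fun x => ⟨θ x, by simp⟩
      | succ n ih =>
        intro x
        obtain ⟨u, hu⟩ := h x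
        obtain ⟨v, hv⟩ := ih u
        exact ⟨v, by rw [← hid, ← hθ, hu, map_smul, hθ, hv, pow_succ', mul_smul]⟩
    have h2 : ∀ x, ε (θ x) = 0 := fun x => hsep _ fun n => h1 n x
    intro z
    obtain ⟨f, u, hf, hu⟩ := htor _ (h2 z)
    exact tf f hf _ (by rw [← hid, ← map_smul, hu, hθ, h2])
  by_cases h : ∀ x, ∃ u, ε (θ x) = p • ε u
  · exact Or.inl (key θ hθ hid h)
  · push Not at h
    obtain ⟨x, hx⟩ := h
    refine Or.inr fun z => (sub_eq_zero.1 (key (LinearMap.id - θ) (fun z => by simp [hθ])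
      (fun z => by simp [hid]) (fun z => ?_) z)).symm
    obtain ⟨f, u, hu⟩ := hS _ hx z
    refine ⟨u - θ u, ?_⟩
    simp only [LinearMap.sub_apply, LinearMap.id_apply, map_sub, ← hθ, hu, map_add, map_smul, hid,
      smul_sub]
    abel

end Pool.Agent.MP_9f28a9_al.NS
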