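import Pool.Agent.MP_9f28a9_al.NS.Final

set_option autoImplicit false

/-!
Removal of the noetherian hypothesis, and rings of Krull dimension at least two.
-/

namespace Pool.Agent.MP_9f28a9_al.NS

open Pool.Agent.MP_9f28a9_al

variable {S A : Type} [Ring S] [CommRing A]

/-- Three elements independent modulo `I`, with coefficients taken modulo `m`. -/
def Ind (m I : Ideal A) (w₁ w₂ w₃ : A) : Prop :=
  ∀ a b c : A, a * w₁ + b * w₂ + c * w₃ ∈ I → a ∈ m ∧ b ∈ m ∧ c ∈ m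

lemma mem_of_mul_mem {m I : Ideal A} (hm : m.IsMaximal) {a r : A} (ha : a ∉ m) (h : a * r ∈ I)
    (hr : ∀ e ∈ m, e * r ∈ I) : r ∈ I := by
  obtain ⟨c, e, he, h1⟩ := hm.exists_inv ha
  rw [show r = c * (a * r) + e * r by linear_combination -r * h1]
  exact add_mem (I.mul_mem_left _ h) (hr e he)

lemma two_gen {m : Ideal A} (hm : m.IsMaximal)
    (h : ¬ ∃ x ∈ m, ∃ y ∈ m, ∃ z ∈ m, Ind m (m ^ 2) x y z) :
    ∃ x ∈ m, ∃ y ∈ m, m ≤ Ideal.span {x, y} ⊔ m ^ 2 := by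
  by_contra hn
  push Not at hn
  have key : ∀ x ∈ m, ∀ y ∈ m, ∃ z ∈ m, ∀ a b c : A, a * x + b * y + c * z ∈ m ^ 2 → c ∈ m := by
    intro x hx y hy
    obtain ⟨z, hz, hz'⟩ := SetLike.not_le_iff_exists.1 (hn x hx y hy)
    refine ⟨z, hz, fun a b c h1 => by_contra fun hc => hz' (mem_of_mul_mem hm hc ?_ fun e he => ?_)⟩
    · rw [show c * z = -(a * x + b * y) + (a * x + b * y + c * z) by ring]
      exact add_mem (neg_mem (Ideal.mem_sup_left (Ideal.mem_span_pair.2 ⟨a, b, rfl⟩)))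
        (Ideal.mem_sup_right h1)
    · exact Ideal.mem_sup_right (pow_two m ▸ Ideal.mul_mem_mul he hz)
  obtain ⟨x, hx, h1⟩ := key 0 m.zero_mem 0 m.zero_mem
  obtain ⟨y, hy, h2⟩ := key x hx 0 m.zero_mem
  obtain ⟨z, hz, h3⟩ := key x hx y hy
  refine h ⟨x, hx, y, hy, z, hz, fun a b c h4 => ?_⟩
  have hc := h3 a b c h4
  have h5 : a * x + b * y ∈ m ^ 2 :=
    (Submodule.add_mem_iff_left _ (pow_two m ▸ Ideal.mul_mem_mul hc hz)).1 h4
  have hb := h2 a 0 b (by simpa using h5)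
  exact ⟨h1 0 0 a (by
    simpa using (Submodule.add_mem_iff_left _ (pow_two m ▸ Ideal.mul_mem_mul hb hy)).1 h5), hb, hc⟩

lemma main_quot (ρ : S →+* A) (hρ : Function.Surjective ρ) {m : Ideal A} (hm : m.IsMaximal)
    {s : ℕ} {w₁ w₂ w₃ : A} (h₁ : w₁ ∈ m ^ s) (h₂ : w₂ ∈ m ^ s) (h₃ : w₃ ∈ m ^ s) {I : Ideal A}
    (hI : m ^ (s + 1) ≤ I) (hind : Ind m I w₁ w₂ w₃) {T : Ideal A} (hT : T.FG) (hTm : T ≤ m)
    (hmT : m ≤ T ⊔ I) :
    ∃ C : Set (Zar S), (∃ F : Set (PPPair S), C = ⋂ p ∈ F, p.supp) ∧ IsClosed C ∧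
      IsIrreducible C ∧ ∀ x : Zar S, ¬ IsGenericPoint x C := by
  have hIm : I ≤ m := fun r hr => (hind r 0 0 (by simpa using I.mul_mem_right w₁ hr)).1
  have hq := Ideal.Quotient.mk_surjective (I := I)
  have : IsNoetherianRing (A ⧸ I) := by
    refine .of_prime fun P hP => ?_
    have h1 : m = P.comap (Ideal.Quotient.mk I) :=
      hm.eq_of_le (Ideal.IsPrime.ne_top inferInstance) (Ideal.IsPrime.le_of_pow_le
        (hI.trans (Ideal.mk_ker.symm.le.trans (Ideal.ker_le_comap _))))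
    have h2 : m = T ⊔ I := le_antisymm hmT (sup_le hTm hIm)
    rw [← Ideal.map_comap_of_surjective _ hq P, ← h1, h2, Ideal.map_sup, Ideal.map_quotient_self,
      sup_bot_eq]
    exact hT.map _
  refine main ((Ideal.Quotient.mk I).comp ρ) (hq.comp hρ) (m.map (Ideal.Quotient.mk I))
    (Ideal.IsMaximal.map_of_surjective_of_ker_le hq (Ideal.mk_ker.le.trans hIm)) s _ _ _
    (Ideal.map_pow (Ideal.Quotient.mk I) m s ▸ Ideal.mem_map_of_mem _ h₁)
    (Ideal.map_pow (Ideal.Quotient.mk I) m s ▸ Ideal.mem_map_of_mem _ h₂)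
    (Ideal.map_pow (Ideal.Quotient.mk I) m s ▸ Ideal.mem_map_of_mem _ h₃) fun a b c h => ?_
  obtain ⟨a, rfl⟩ := hq a
  obtain ⟨b, rfl⟩ := hq b
  obtain ⟨c, rfl⟩ := hq c
  rw [← Ideal.map_pow, (Ideal.map_eq_bot_iff_le_ker _).2 (hI.trans Ideal.mk_ker.symm.le),
    Ideal.mem_bot, ← map_mul, ← map_mul, ← map_mul, ← map_add, ← map_add,
    Ideal.Quotient.eq_zero_iff_mem] at h
  obtain ⟨ha, hb, hc⟩ := hind a b c h
  exact ⟨Ideal.mem_map_of_mem _ ha, Ideal.mem_map_of_mem _ hb, Ideal.mem_map_of_mem _ hc⟩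

theorem main_general (ρ : S →+* A) (hρ : Function.Surjective ρ) (m : Ideal A) (hm : m.IsMaximal)
    (s : ℕ) (w₁ w₂ w₃ : A) (h₁ : w₁ ∈ m ^ s) (h₂ : w₂ ∈ m ^ s) (h₃ : w₃ ∈ m ^ s)
    (hind : Ind m (m ^ (s + 1)) w₁ w₂ w₃) :
    ∃ C : Set (Zar S), (∃ F : Set (PPPair S), C = ⋂ p ∈ F, p.supp) ∧ IsClosed C ∧
      IsIrreducible C ∧ ∀ x : Zar S, ¬ IsGenericPoint x C := by
  classical
  by_cases h : ∃ x ∈ m, ∃ y ∈ m, ∃ z ∈ m, Ind m (m ^ 2) x y z
  · obtain ⟨x, hx, y, hy, z, hz, h⟩ := h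
    obtain ⟨I, hI, hmax⟩ := zorn_le_nonempty₀ {I : Ideal A | Ind m I x y z}
      (fun c hc hchain J hJ => ⟨sSup c, fun a b e h1 => by
        obtain ⟨J, hJ, h2⟩ := (Submodule.mem_sSup_of_directed ⟨J, hJ⟩ hchain.directedOn).1 h1
        exact hc hJ a b e h2, fun _ hz => le_sSup hz⟩) (m ^ 2) h
    refine main_quot ρ hρ hm (s := 1) (by simpa using hx) (by simpa using hy) (by simpa using hz)
      hI hmax.prop (T := Ideal.span {x, y, z}) ⟨{x, y, z}, by simp⟩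
      (Ideal.span_le.2 (by rintro _ (rfl | rfl | rfl) <;> assumption)) fun r hr => ?_
    by_contra hn
    refine hn (Ideal.mem_sup_right (hmax.le_of_ge (y := I ⊔ Ideal.span {r}) ?_ le_sup_left
      (Ideal.mem_sup_right (Ideal.mem_span_singleton_self r))))
    intro a b c h1
    obtain ⟨i, hi, _, h2, h3⟩ := Submodule.mem_sup.1 h1
    obtain ⟨e, rfl⟩ := Ideal.mem_span_singleton'.1 h2
    have hrm : ∀ e ∈ m, e * r ∈ I := fun e he => hI (pow_two m ▸ Ideal.mul_mem_mul he hr)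
    by_cases he : e ∈ m
    · exact hmax.prop a b c (h3 ▸ add_mem hi (hrm e he))
    · refine absurd (mem_of_mul_mem hm he ?_ fun e he => Ideal.mem_sup_right (hrm e he)) hn
      rw [show e * r = a * x + b * y + c * z - i by linear_combination h3]
      refine sub_mem (Ideal.mem_sup_left ?_) (Ideal.mem_sup_right hi)
      refine add_mem (add_mem ?_ ?_) ?_ <;> exact Ideal.mul_mem_left _ _ (Ideal.subset_span (by simp))
  · obtain ⟨x, hx, y, hy, h⟩ := two_gen hm h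
    refine main_quot ρ hρ hm h₁ h₂ h₃ le_rfl hind (T := Ideal.span {x, y}) ⟨{x, y}, by simp⟩
      (Ideal.span_le.2 (by rintro _ (rfl | rfl) <;> assumption)) ?_
    induction s + 1 with
    | zero => simp
    | succ n ih =>
      refine h.trans (sup_le le_sup_left ?_)
      rw [pow_two, pow_succ']
      refine (Ideal.mul_mono_right ih).trans ?_
      rw [Ideal.mul_sup]
      exact sup_le_sup_right Ideal.mul_le_right _

/-- In a noetherian ring a maximal ideal of height at least two satisfies the hypothesis. -/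
theorem exists_ind_of_height [IsNoetherianRing A] {m : Ideal A} (hm : m.IsMaximal)
    (hh : ¬ m.height ≤ 1) : ∃ (s : ℕ) (w₁ w₂ w₃ : A), w₁ ∈ m ^ s ∧ w₂ ∈ m ^ s ∧ w₃ ∈ m ^ s ∧
      Ind m (m ^ (s + 1)) w₁ w₂ w₃ := by
  by_cases h : ∃ x ∈ m, ∃ y ∈ m, ∃ z ∈ m, Ind m (m ^ 2) x y z
  · obtain ⟨x, hx, y, hy, z, hz, h⟩ := h
    exact ⟨1, x, y, z, by simpa using hx, by simpa using hy, by simpa using hz, h⟩
  obtain ⟨x, hx, y, hy, h⟩ := two_gen hm h
  have h2 : ∀ {a b : A}, a ∈ m → b ∈ m → a * b ∈ m ^ 2 :=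
    fun ha hb => pow_two m ▸ Ideal.mul_mem_mul ha hb
  have h3 : ∀ {a b : A}, a ∈ m → b ∈ m ^ 2 → a * b ∈ m ^ 3 :=
    fun ha hb => pow_succ' m 2 ▸ Ideal.mul_mem_mul ha hb
  have key : ∀ u ∈ m, x * x ∉ Ideal.span {u} ⊔ m ^ 3 ∨ x * y ∉ Ideal.span {u} ⊔ m ^ 3 ∨
      y * y ∉ Ideal.span {u} ⊔ m ^ 3 := by
    intro u hu
    by_contra hn
    push Not at hn
    obtain ⟨hxx, hxy, hyy⟩ := hn
    have h4 : m ^ 2 ≤ Ideal.span {u} ⊔ m • m ^ 2 := by
      rw [smul_eq_mul, ← pow_succ', pow_two]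
      refine Ideal.mul_le.2 fun a ha b hb => ?_
      obtain ⟨_, ha1, a', ha', rfl⟩ := Submodule.mem_sup.1 (h ha)
      obtain ⟨_, hb1, b', hb', hbb⟩ := Submodule.mem_sup.1 (h hb)
      obtain ⟨a₁, a₂, rfl⟩ := Ideal.mem_span_pair.1 ha1
      obtain ⟨b₁, b₂, rfl⟩ := Ideal.mem_span_pair.1 hb1
      rw [show (a₁ * x + a₂ * y + a') * b = a₁ * b₁ * (x * x) + (a₁ * b₂ + a₂ * b₁) * (x * y) +
        a₂ * b₂ * (y * y) + ((a₁ * x + a₂ * y) * b' + b * a') by rw [← hbb]; ring]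
      exact add_mem (add_mem (add_mem (Ideal.mul_mem_left _ _ hxx) (Ideal.mul_mem_left _ _ hxy))
        (Ideal.mul_mem_left _ _ hyy)) (Ideal.mem_sup_right (add_mem
          (h3 (add_mem (m.mul_mem_left _ hx) (m.mul_mem_left _ hy)) hb') (h3 hb ha')))
    obtain ⟨r, hr, hr'⟩ := Submodule.exists_sub_one_mem_and_smul_le_of_fg_of_le_sup
      (IsNoetherian.noetherian _) le_rfl h4
    have := hm.isPrime
    refine hh (Ideal.height_le_one_of_isPrincipal_of_mem_minimalPrimes (Ideal.span {u}) m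
      ⟨⟨hm.isPrime, (Ideal.span_singleton_le_iff_mem _).2 hu⟩, fun P ⟨hP, hPu⟩ hPm => ?_⟩)
    refine Ideal.IsPrime.le_of_pow_le (n := 2) fun a ha => ?_
    refine (hP.mem_or_mem (hPu (hr' (Submodule.smul_mem_pointwise_smul a r _ ha)))).resolve_left
      fun h5 => hm.ne_top ((Ideal.eq_top_iff_one _).2 ?_)
    simpa using sub_mem (hPm h5) hr
  have hsp : ∀ u a : A, a * u ∈ Ideal.span {u} ⊔ m ^ 3 := fun u a =>
    Ideal.mem_sup_left (Ideal.mem_span_singleton'.2 ⟨a, rfl⟩)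
  refine ⟨2, x * x, x * y, y * y, h2 hx hx, h2 hx hy, h2 hy hy, fun a b c h4 => ?_⟩
  have ha : a ∈ m := by_contra fun ha => by
    have : x * x ∈ Ideal.span {y} ⊔ m ^ 3 := mem_of_mul_mem hm ha (by
      rw [show a * (x * x) = (a * (x * x) + b * (x * y) + c * (y * y)) - (b * x + c * y) * y by ring]
      exact sub_mem (Ideal.mem_sup_right h4) (hsp _ _))
      fun e he => Ideal.mem_sup_right (h3 he (h2 hx hx))
    simpa [this, hsp] using key y hy
  have hc : c ∈ m := by_contra fun hc => by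
    have : y * y ∈ Ideal.span {x} ⊔ m ^ 3 := mem_of_mul_mem hm hc (by
      rw [show c * (y * y) = (a * (x * x) + b * (x * y) + c * (y * y)) - (a * x + b * y) * x by ring]
      exact sub_mem (Ideal.mem_sup_right h4) (hsp _ _))
      fun e he => Ideal.mem_sup_right (h3 he (h2 hy hy))
    simpa [this, hsp, mul_comm x y] using key x hx
  refine ⟨ha, by_contra fun hb => ?_, hc⟩
  have h5 : x * y ∈ Ideal.span {x + y} ⊔ m ^ 3 := Ideal.mem_sup_right (mem_of_mul_mem hm hb (by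
      rw [show b * (x * y) = (a * (x * x) + b * (x * y) + c * (y * y)) - a * (x * x) - c * (y * y)
        by ring]
      exact sub_mem (sub_mem h4 (h3 ha (h2 hx hx))) (h3 hc (h2 hy hy)))
    fun e he => h3 he (h2 hx hy))
  rcases key (x + y) (add_mem hx hy) with h6 | h6 | h6
  · exact h6 (by rw [show x * x = x * (x + y) - x * y by ring]; exact sub_mem (hsp _ _) h5)
  · exact h6 h5
  · exact h6 (by rw [show y * y = y * (x + y) - x * y by ring]; exact sub_mem (hsp _ _) h5)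

end Pool.Agent.MP_9f28a9_al.NS
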