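import Pool.Agent.MP_9f28a9_al.NS.Point

set_option autoImplicit false

/-!
The irreducible closed set without generic point.
-/

namespace Pool.Agent.MP_9f28a9_al.NS

open Pool.Agent.MP_9f28a9_al Filter Polynomial

section top
variable {S : Type} [Ring S]

lemma exists_pair (φ ψ : PP S) : ∃ p : PPPair S, ∀ (G : Type) [AddCommGroup G] [Module S G],
    p.Closed G ↔ φ.sol G ⊆ ψ.sol G := by
  obtain ⟨χ, hχ⟩ := (isPP1_sol φ).and (isPP1_sol ψ)
  exact ⟨⟨φ, χ, fun G _ _ x hx => ((hχ G x).2 hx).1⟩, fun G _ _ =>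
    ⟨fun h x hx => ((hχ G x).2 (h hx)).2, fun h x hx => (hχ G x).1 ⟨hx, h hx⟩⟩⟩

theorem top_main {J : Type} (F : Filter J) [F.NeBot] (N : J → Pinj S)
    (c1 : ∀ (φ ψ : PP S) (j : J), φ.sol (N j).1 ⊆ ψ.sol (N j).1 →
      ∀ᶠ i in F, φ.sol (N i).1 ⊆ ψ.sol (N i).1)
    (c2 : ∀ G : Pinj S, Tr (S := S) F (fun j => (N j).1) G.1 →
      ¬ ∀ φ ψ : PP S, φ.sol G.1 ⊆ ψ.sol G.1 → ∃ j, φ.sol (N j).1 ⊆ ψ.sol (N j).1) :
    ∃ C : Set (Zar S), (∃ F : Set (PPPair S), C = ⋂ p ∈ F, p.supp) ∧ IsClosed C ∧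
      IsIrreducible C ∧ ∀ x : Zar S, ¬ IsGenericPoint x C := by
  let pt : J → Zar S := fun j => Quotient.mk (isoSetoid S) (N j)
  let T : Set (PPPair S) := {p | ∀ j, pt j ∈ p.supp}
  have hpt : ∀ j, pt j ∈ ⋂ p ∈ T, p.supp := fun j => Set.mem_iInter₂.2 fun p hp => hp j
  have hopen : ∀ U : Set (Zar S), IsOpen U → ∀ x ∈ ⋂ p ∈ T, p.supp, x ∈ U →
      ∀ᶠ j in F, pt j ∈ U := by
    intro U hU x hx
    induction hU with
    | basic U hU =>
      obtain ⟨p, rfl⟩ := hU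
      intro hxU
      have hpT : p ∉ T := fun hp => hxU (Set.mem_iInter₂.1 hx p hp)
      obtain ⟨j, hj⟩ := not_forall.1 hpT
      exact (c1 _ _ j (not_not.1 (mt (p.mk_mem_supp (N j)).2 hj))).mono
        fun i hi h => (p.mk_mem_supp _).1 h hi
    | univ => exact fun _ => .of_forall fun _ => Set.mem_univ _
    | inter U V _ _ ihU ihV => exact fun h => (ihU h.1).and (ihV h.2)
    | sUnion 𝒰 _ ih =>
      rintro ⟨U, hU, hxU⟩
      exact (ih U hU hxU).mono fun j hj => ⟨U, hU, hj⟩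
  obtain ⟨j₀⟩ := F.nonempty_of_neBot
  refine ⟨⋂ p ∈ T, p.supp, ⟨T, rfl⟩, isClosed_biInter fun p _ => isClosed_supp p,
    ⟨⟨_, hpt j₀⟩, ?_⟩, ?_⟩
  · rintro U V hU hV ⟨x, hx, hxU⟩ ⟨y, hy, hyV⟩
    obtain ⟨j, h1, h2⟩ := ((hopen U hU x hx hxU).and (hopen V hV y hy hyV)).exists
    exact ⟨pt j, hpt j, h1, h2⟩
  · intro x hx
    obtain ⟨G, rfl⟩ := Quotient.exists_rep x
    refine c2 G (fun φ ψ h => ?_) fun φ ψ h => ?_
    · obtain ⟨p, hp⟩ := exists_pair φ ψ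
      obtain ⟨j, hj⟩ := h.exists
      by_contra hn
      have h1 := (hx.mem_closed_set_iff (isClosed_supp p)).1
        ((p.mk_mem_supp G).2 fun h => hn ((hp _).1 h)) (hpt j)
      exact (p.mk_mem_supp _).1 h1 ((hp _).2 hj)
    · obtain ⟨p, hp⟩ := exists_pair φ ψ
      by_contra hn
      exact (p.mk_mem_supp G).1 (Set.mem_iInter₂.1 hx.mem p fun j =>
        (p.mk_mem_supp _).2 fun h => hn ⟨j, (hp _).1 h⟩) ((hp _).2 h)

variable {A : Type} [CommRing A]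

/-- Change of coefficients in a pp formula. -/
def ppMap (ρ : S →+* A) (φ : PP S) : PP A :=
  ⟨φ.m, φ.n, fun j => ρ (φ.a j), fun j i => ρ (φ.b j i)⟩

lemma sol_ppMap (ρ : S →+* A) (φ : PP S) (G : Type) [AddCommGroup G] [Module S G] [Module A G]
    (h : ∀ (s : S) (x : G), s • x = ρ s • x) : φ.sol G = (ppMap ρ φ).sol G := by
  simp only [PP.sol, ppMap, h]
  rfl

lemma ppMap_surjective {ρ : S →+* A} (hρ : Function.Surjective ρ) :
    Function.Surjective (ppMap ρ) := by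
  rintro ⟨m, n, a, b⟩
  choose a' ha using fun j => hρ (a j)
  choose b' hb using fun j i => hρ (b j i)
  exact ⟨⟨m, n, a', b'⟩, by simp only [ppMap, ha, hb]⟩

lemma indec_iff {ρ : S →+* A} (hρ : Function.Surjective ρ) (G : Type) [AddCommGroup G]
    [Module S G] [Module A G] (h : ∀ (s : S) (x : G), s • x = ρ s • x) :
    IsIndecomposable S G ↔ IsIndecomposable A G := by
  let e : Submodule A G ≃o Submodule S G :=
    { toFun := fun U => ⟨U.toAddSubmonoid, fun s x hx => h s x ▸ U.smul_mem _ hx⟩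
      invFun := fun U => ⟨U.toAddSubmonoid, fun a x hx => by
        obtain ⟨s, rfl⟩ := hρ a
        exact h s x ▸ U.smul_mem _ hx⟩
      left_inv := fun _ => rfl
      right_inv := fun _ => rfl
      map_rel_iff' := Iff.rfl }
  refine and_congr_right fun _ => ⟨fun H U V hUV => ?_, fun H U V hUV => ?_⟩
  · simpa using H _ _ (e.isCompl hUV)
  · simpa using H _ _ (e.symm.isCompl hUV)

end top

lemma exists_sep_not_dvd {k : Type} [Field k] {f : k[X]} (hf : f ≠ 0) :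
    ∃ p : k[X], Irreducible p ∧ p.Separable ∧ ¬ p ∣ f := by
  classical
  cases finite_or_infinite k with
  | inl h =>
    obtain ⟨p, hp, hd⟩ := WfDvdMonoid.exists_irreducible_factor (a := X * f + 1)
      (fun h => by
        obtain ⟨c, -, hc⟩ := Polynomial.isUnit_iff.1 h
        have h1 := congrArg (fun g : k[X] => g.coeff (f.natDegree + 1)) hc
        simp [coeff_one] at h1
        exact hf (leadingCoeff_eq_zero.1 h1.symm))
      (fun h => by simpa using congrArg (eval 0) h)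
    exact ⟨p, hp, PerfectField.separable_of_irreducible hp, fun h =>
      hp.not_isUnit (isUnit_of_dvd_one ((dvd_add_right (h.mul_left X)).1 hd))⟩
  | inr h =>
    obtain ⟨a, ha⟩ := Infinite.exists_notMem_finset f.roots.toFinset
    exact ⟨X - C a, irreducible_X_sub_C a, separable_X_sub_C, fun h =>
      ha (Multiset.mem_toFinset.2 ((mem_roots hf).2 (dvd_iff_isRoot.1 h)))⟩

theorem main_dat {S A k : Type} [Ring S] [CommRing A] [IsNoetherianRing A] [Field k] [Algebra A k]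
    (ρ : S →+* A) (hρ : Function.Surjective ρ) (d : Dat A k) (hd : d.Indep) :
    ∃ C : Set (Zar S), (∃ F : Set (PPPair S), C = ⋂ p ∈ F, p.supp) ∧ IsClosed C ∧
      IsIrreducible C ∧ ∀ x : Zar S, ¬ IsGenericPoint x C := by
  let J := {p : k[X] // Irreducible p ∧ p.Separable}
  let F : Filter J :=
    { sets := {U | ∃ f : k[X], f ≠ 0 ∧ ∀ p : J, ¬ p.1 ∣ f → p ∈ U}
      univ_sets := ⟨1, one_ne_zero, fun _ _ => trivial⟩
      sets_of_superset := fun ⟨f, hf, h⟩ hUV => ⟨f, hf, fun p hp => hUV (h p hp)⟩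
      inter_sets := fun ⟨f, hf, h⟩ ⟨g, hg, h'⟩ => ⟨f * g, mul_ne_zero hf hg, fun p hp =>
        ⟨h p fun h1 => hp (h1.mul_right g), h' p fun h1 => hp (h1.mul_left f)⟩⟩ }
  have : F.NeBot := ⟨fun h => by
    obtain ⟨f, hf, h1⟩ : ∅ ∈ F := h ▸ mem_bot
    obtain ⟨p, h2, h3, h4⟩ := exists_sep_not_dvd hf
    exact h1 ⟨p, h2, h3⟩ h4⟩
  have hex : ∀ j : J, ∃ (G : Type) (_ : AddCommGroup G) (_ : Module A G) (P : Pres d G),
      PtTop j.1 P.M P.ε := by
    intro j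
    obtain ⟨M, _, _, ε, h1, h2⟩ := exists_top j.2.1 j.2.2
    obtain ⟨G, _, _, P, h3⟩ := exists_cover d hd M ε h1
    exact ⟨G, inferInstance, inferInstance, P, h3 (PtTop j.1) h2⟩
  choose N _ _ P hP using hex
  let _ : ∀ j, Module S (N j) := fun j => Module.compHom _ ρ
  have hN : ∀ j (s : S) (x : N j), s • x = ρ s • x := fun _ _ _ => rfl
  have hs : ∀ f : k[X], f ≠ 0 → ∀ᶠ j in F, ∀ z : (P j).M, ∃ z', f • z' = z :=
    fun f hf => ⟨f, hf, fun j hj => (hP j).2.1 f hj⟩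
  refine top_main F (fun j => ⟨ModuleCat.of S (N j), (indec_iff hρ _ (hN j)).2 ?_, ?_⟩) ?_ ?_
  · have := (hP j).2.2.1
    exact (P j).indec (hP j).2.2.2.1
  · refine isPureInjective_of_DLC (((P j).dlc (hP j).2.2.2.2).mono ?_)
    rintro _ ⟨u, rfl⟩
    exact ⟨⟨u.toAddHom, fun s x => u.map_smul (ρ s) x⟩, rfl⟩
  · exact fun φ ψ j h => core_irr P (fun j => (hP j).1) hs (ppMap ρ φ) (ppMap ρ ψ) j h
  · intro G h1 h2
    have hker : ∀ s : S, ρ s = 0 → ∀ x : G.1, s • x = 0 := fun s hs x =>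
      h1.imp isPP1_true (isPP1_ann s)
        (.of_forall fun j y _ => (hN j s y).trans (by rw [hs, zero_smul])) x trivial
    let c : A →+* Module.End ℤ G.1 := ρ.liftOfSurjective hρ
      ⟨Module.toModuleEnd ℤ G.1, fun s hs => LinearMap.ext (hker s hs)⟩
    have hc : ∀ s, c (ρ s) = Module.toModuleEnd ℤ G.1 s := fun s =>
      RingHom.liftOfRightInverse_comp_apply _ _ _ _ s
    let _ : Module A G.1 := Module.compHom _ c
    have hG : ∀ (s : S) (x : G.1), s • x = ρ s • x := fun s x =>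
      (LinearMap.congr_fun (hc s) x).symm
    refine core_dec P (fun j => (hP j).1) hs (G := G.1) (fun φ ψ h => ?_) (fun φ ψ h => ?_)
      ((indec_iff hρ _ hG).1 G.2.1)
    · obtain ⟨φ, rfl⟩ := ppMap_surjective hρ φ
      obtain ⟨ψ, rfl⟩ := ppMap_surjective hρ ψ
      rw [← sol_ppMap ρ φ _ hG, ← sol_ppMap ρ ψ _ hG]
      exact h1 φ ψ h
    · obtain ⟨φ, rfl⟩ := ppMap_surjective hρ φ
      obtain ⟨ψ, rfl⟩ := ppMap_surjective hρ ψ
      rw [← sol_ppMap ρ φ _ hG, ← sol_ppMap ρ ψ _ hG] at h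
      exact h2 φ ψ h

theorem main {S A : Type} [Ring S] [CommRing A] [IsNoetherianRing A] (ρ : S →+* A)
    (hρ : Function.Surjective ρ) (m : Ideal A) (hm : m.IsMaximal) (s : ℕ) (w₁ w₂ w₃ : A)
    (h₁ : w₁ ∈ m ^ s) (h₂ : w₂ ∈ m ^ s) (h₃ : w₃ ∈ m ^ s)
    (hind : ∀ a b c : A, a * w₁ + b * w₂ + c * w₃ ∈ m ^ (s + 1) → a ∈ m ∧ b ∈ m ∧ c ∈ m) :
    ∃ C : Set (Zar S), (∃ F : Set (PPPair S), C = ⋂ p ∈ F, p.supp) ∧ IsClosed C ∧
      IsIrreducible C ∧ ∀ x : Zar S, ¬ IsGenericPoint x C := by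
  let _ : Field (A ⧸ m) := Ideal.Quotient.field m
  have hmm : mm A (A ⧸ m) = m := Ideal.mk_ker
  exact main_dat ρ hρ (k := A ⧸ m)
    ⟨s, w₁, w₂, w₃, Ideal.Quotient.mk_surjective, hmm.symm ▸ h₁, hmm.symm ▸ h₂, hmm.symm ▸ h₃⟩
    fun a b c h => hmm.symm ▸ hind a b c (hmm ▸ h)

end Pool.Agent.MP_9f28a9_al.NS
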