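import Pool.Agent.MP_9f28a9_al.NS.Core

set_option autoImplicit false

/-!
Linear compactness with respect to a set of operators, and pure-injectivity.
-/

namespace Pool.Agent.MP_9f28a9_al.NS

open Pool.Agent.MP_9f28a9_al Filter Polynomial

/-- Cosets of subgroups stable under the operators in `E`. -/
def AffE {M : Type} [AddCommGroup M] (E : Set (M → M)) (T : Set M) : Prop :=
  ∀ x ∈ T, ∀ y ∈ T, ∀ z ∈ T, ∀ u ∈ E, x + u (y - z) ∈ T

/-- Directed families of such cosets have a common point. -/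
def DLC {M : Type} [AddCommGroup M] (E : Set (M → M)) : Prop :=
  ∀ 𝒯 : Set (Set M), (∀ T ∈ 𝒯, T.Nonempty ∧ AffE E T) →
    (∀ T ∈ 𝒯, ∀ T' ∈ 𝒯, ∃ T'' ∈ 𝒯, T'' ⊆ T ∩ T') → ∃ z, ∀ T ∈ 𝒯, z ∈ T

lemma DLC.mono {M : Type} [AddCommGroup M] {E E' : Set (M → M)} (h : DLC E) (hE : E ⊆ E') :
    DLC E' := fun 𝒯 h1 h2 =>
  h 𝒯 (fun T hT => ⟨(h1 T hT).1, fun x hx y hy z hz u hu => (h1 T hT).2 x hx y hy z hz u (hE hu)⟩)
    h2

section pure
variable {S : Type} [Ring S]

/-- Relations between `B` and `N` that preserve solvability of finite linear systems. -/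
def GoodS {B N : Type} [AddCommGroup B] [Module S B] [AddCommGroup N] [Module S N]
    (G : Submodule S (B × N)) : Prop :=
  ∀ (κ ι : Type) [Fintype κ] [Fintype ι] (b : κ → ι → S) (c : κ → B × N), (∀ j, c j ∈ G) →
    (∃ y : ι → B, ∀ j, ∑ i, b j i • y i = (c j).1) → ∃ y : ι → N, ∀ j, ∑ i, b j i • y i = (c j).2

lemma pure_fintypeS {A₁ B : Type} [AddCommGroup A₁] [Module S A₁] [AddCommGroup B] [Module S B]
    {f : A₁ →ₗ[S] B} (hf : IsPureEmbedding f) (κ ι : Type) [Fintype κ] [Fintype ι]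
    (b : κ → ι → S) (c : κ → A₁) (h : ∃ y : ι → B, ∀ j, ∑ i, b j i • y i = f (c j)) :
    ∃ y : ι → A₁, ∀ j, ∑ i, b j i • y i = c j := by
  obtain ⟨y, hy⟩ := h
  let eκ := (Fintype.equivFin κ).symm
  let eι := (Fintype.equivFin ι).symm
  obtain ⟨y', hy'⟩ := hf.2 _ _ (fun j i => b (eκ j) (eι i)) (fun j => c (eκ j))
    ⟨fun i => y (eι i), fun j => by
      rw [← hy (eκ j)]
      exact Equiv.sum_comp eι (fun i => b (eκ j) i • y i)⟩
  refine ⟨fun i => y' (eι.symm i), fun j => ?_⟩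
  have := hy' (eκ.symm j)
  simp only [Equiv.apply_symm_apply] at this
  rw [← this, ← Equiv.sum_comp eι]
  simp

variable {B N : Type} [AddCommGroup B] [Module S B] [AddCommGroup N] [Module S N]

lemma goodS_sSup (c : Set (Submodule S (B × N))) (hc : ∀ G ∈ c, GoodS G)
    (hchain : IsChain (· ≤ ·) c) (hne : c.Nonempty) : GoodS (sSup c) := by
  intro κ ι _ _ b d hd hsol
  have hdir : DirectedOn (· ≤ ·) c := hchain.directedOn
  have key : ∀ s : Finset κ, ∃ G ∈ c, ∀ j ∈ s, d j ∈ G := by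
    classical
    intro s
    induction s using Finset.induction_on with
    | empty => obtain ⟨G, hG⟩ := hne; exact ⟨G, hG, by simp⟩
    | insert j s _ ih =>
      obtain ⟨G, hG, hGs⟩ := ih
      obtain ⟨G', hG', hj⟩ := (Submodule.mem_sSup_of_directed hne hdir).1 (hd j)
      obtain ⟨G'', hG'', h1, h2⟩ := hdir G hG G' hG'
      refine ⟨G'', hG'', fun k hk => ?_⟩
      rcases Finset.mem_insert.1 hk with rfl | hk
      · exact h2 hj
      · exact h1 (hGs k hk)
  obtain ⟨G, hG, hGs⟩ := key Finset.univ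
  exact hc G hG κ ι b d (fun j => hGs j (Finset.mem_univ j)) hsol

/-- The set of values that a finite system allows for the image of a new element. -/
def allowedS {κ ι : Type} [Fintype ι] (b : κ → ι → S) (g : κ → B × N) (r : κ → S) : Set N :=
  {z | ∃ y : ι → N, ∀ j, ∑ i, b j i • y i = (g j).2 + r j • z}

lemma goodS_extend (hN : DLC (Set.range (DFunLike.coe : (N →ₗ[S] N) → N → N)))
    {G : Submodule S (B × N)} (hG : GoodS G) (b₀ : B) :
    ∃ z : N, GoodS (G ⊔ Submodule.span S {(b₀, z)}) := by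
  let 𝒯 : Set (Set N) := {T | ∃ (κ ι : Type) (_ : Fintype κ) (_ : Fintype ι) (b : κ → ι → S)
    (g : κ → B × N) (r : κ → S), (∀ j, g j ∈ G) ∧
      (∃ y : ι → B, ∀ j, ∑ i, b j i • y i = (g j).1 + r j • b₀) ∧ T = allowedS b g r}
  obtain ⟨z, hz⟩ := hN 𝒯
    (by
      rintro T ⟨κ, ι, _, _, b, g, r, hg, ⟨y, hy⟩, rfl⟩
      constructor
      · obtain ⟨y', hy'⟩ := hG κ (Option ι) (fun j i => i.elim (-r j) (b j)) g hg
          ⟨fun i => i.elim b₀ y, fun j => by simp [Fintype.sum_option, hy]⟩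
        refine ⟨y' none, fun i => y' (some i), fun j => ?_⟩
        rw [← hy' j]
        simp [Fintype.sum_option]
      · rintro x ⟨y₁, h₁⟩ x' ⟨y₂, h₂⟩ x'' ⟨y₃, h₃⟩ _ ⟨u, rfl⟩
        refine ⟨fun i => y₁ i + u (y₂ i - y₃ i), fun j => ?_⟩
        have : ∑ i, b j i • (y₁ i + u (y₂ i - y₃ i)) =
            ∑ i, b j i • y₁ i + u (∑ i, b j i • y₂ i - ∑ i, b j i • y₃ i) := by
          rw [← Finset.sum_sub_distrib, map_sum, ← Finset.sum_add_distrib]
          refine Finset.sum_congr rfl fun i _ => ?_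
          rw [smul_add, ← smul_sub, map_smul]
        rw [this, h₁, h₂, h₃, add_sub_add_left_eq_sub, ← smul_sub, map_smul, smul_add, add_assoc])
    (by
      rintro T ⟨κ₁, ι₁, _, _, b₁, g₁, r₁, hg₁, ⟨y₁, hy₁⟩, rfl⟩
        T' ⟨κ₂, ι₂, _, _, b₂, g₂, r₂, hg₂, ⟨y₂, hy₂⟩, rfl⟩
      refine ⟨_, ⟨κ₁ ⊕ κ₂, ι₁ ⊕ ι₂, inferInstance, inferInstance,
        Sum.elim (fun j => Sum.elim (b₁ j) fun _ => 0) (fun j => Sum.elim (fun _ => 0) (b₂ j)),
        Sum.elim g₁ g₂, Sum.elim r₁ r₂, ?_, ⟨Sum.elim y₁ y₂, ?_⟩, rfl⟩, ?_⟩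
      · rintro (j | j)
        exacts [hg₁ j, hg₂ j]
      · rintro (j | j) <;> simp [hy₁, hy₂]
      · rintro z ⟨y, hy⟩
        exact ⟨⟨fun i => y (Sum.inl i), fun j => by simpa using hy (Sum.inl j)⟩,
          ⟨fun i => y (Sum.inr i), fun j => by simpa using hy (Sum.inr j)⟩⟩)
  refine ⟨z, ?_⟩
  intro κ ι _ _ b c hc hsol
  have hdec : ∀ j, ∃ g ∈ G, ∃ r : S, c j = g + r • (b₀, z) := by
    intro j
    obtain ⟨g, hg, w, hw, hsum⟩ := Submodule.mem_sup.1 (hc j)
    obtain ⟨r, rfl⟩ := Submodule.mem_span_singleton.1 hw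
    exact ⟨g, hg, r, hsum.symm⟩
  choose g hg r hr using hdec
  have hmem : allowedS b g r ∈ 𝒯 := by
    refine ⟨κ, ι, inferInstance, inferInstance, b, g, r, hg, ?_, rfl⟩
    obtain ⟨y, hy⟩ := hsol
    exact ⟨y, fun j => by rw [hy j, hr j]; simp⟩
  obtain ⟨y, hy⟩ := hz _ hmem
  exact ⟨y, fun j => by rw [hy j, hr j]; simp⟩

theorem isPureInjective_of_DLC (hN : DLC (Set.range (DFunLike.coe : (N →ₗ[S] N) → N → N))) :
    IsPureInjective S N := by
  intro A₁ B _ _ _ _ f hf g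
  let G₀ : Submodule S (B × N) := LinearMap.range (f.prod g)
  have hG₀ : GoodS G₀ := by
    intro κ ι _ _ b c hc hsol
    choose a ha using hc
    obtain ⟨y, hy⟩ := pure_fintypeS hf κ ι b a (by
      obtain ⟨y, hy⟩ := hsol
      exact ⟨y, fun j => by rw [hy j, ← ha j]; rfl⟩)
    refine ⟨fun i => g (y i), fun j => ?_⟩
    rw [← ha j]
    simp only [← map_smul, ← map_sum, hy j]
    rfl
  obtain ⟨G, hG₀G, hmax⟩ := zorn_le_nonempty₀ {G : Submodule S (B × N) | GoodS G}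
    (fun c hc hchain y hy => ⟨sSup c, goodS_sSup c hc hchain ⟨y, hy⟩, fun z hz => le_sSup hz⟩)
    G₀ hG₀
  have hG : GoodS G := hmax.prop
  have htot : ∀ b₀ : B, ∃ z, (b₀, z) ∈ G := by
    intro b₀
    obtain ⟨z, hz⟩ := goodS_extend hN hG b₀
    have := hmax.le_of_ge hz le_sup_left
    exact ⟨z, this (Submodule.mem_sup_right (Submodule.mem_span_singleton_self _))⟩
  have huniq : ∀ b₀ z z', (b₀, z) ∈ G → (b₀, z') ∈ G → z = z' := by
    intro b₀ z z' h h'
    have := G.sub_mem h h'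
    rw [Prod.mk_sub_mk, sub_self] at this
    obtain ⟨y, hy⟩ := hG Unit Empty (fun _ i => i.elim) (fun _ => (0, z - z')) (fun _ => this)
      ⟨fun i => i.elim, fun _ => by simp⟩
    exact sub_eq_zero.1 (by simpa using (hy ()).symm)
  choose h hh using htot
  refine ⟨⟨⟨h, fun x y => ?_⟩, fun r x => ?_⟩, ?_⟩
  · exact huniq _ _ _ (hh (x + y)) (G.add_mem (hh x) (hh y))
  · exact huniq _ _ _ (hh (r • x)) (G.smul_mem r (hh x))
  · ext a
    exact huniq _ _ _ (hh (f a)) (hG₀G ⟨a, rfl⟩)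

end pure

variable {A k : Type} [CommRing A] [Field k] [Algebra A k] [IsNoetherianRing A] {d : Dat A k}
  {G : Type} [AddCommGroup G] [Module A G]

/-- The endomorphisms commuting with the operator. -/
def EndE {D M : Type} [CommRing D] [AddCommGroup M] [Module D M] (ε : M →ₗ[D] M) : Set (M → M) :=
  {u | ∃ θ : M →ₗ[D] M, (∀ z, θ (ε z) = ε (θ z)) ∧ ⇑θ = u}

/-- Linear compactness passes from the top to the module. -/
theorem Pres.dlc (P : Pres d G) (hM : DLC (EndE P.ε)) :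
    DLC (Set.range (DFunLike.coe : (G →ₗ[A] G) → G → G)) := by
  intro 𝒯 h1 h2
  have key : ∀ I : Ideal A, mm A k ^ (d.s + 1) ≤ I →
      ∃ z, ∀ T ∈ 𝒯, ∃ t ∈ T, z - t ∈ (I • ⊤ : Submodule A G) := by
    intro I
    induction I using WellFoundedGT.induction with
    | ind I ih =>
      intro hI
      by_cases hne : I = ⊤
      · refine ⟨0, fun T hT => ?_⟩
        obtain ⟨t, ht⟩ := (h1 T hT).1
        exact ⟨t, ht, by rw [hne, Submodule.top_smul]; exact Submodule.mem_top⟩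
      obtain ⟨r, hr, hrm⟩ := exists_socle hI hne
      have hlt : I < I ⊔ Ideal.span {r} :=
        lt_of_le_of_ne le_sup_left fun h =>
          hr (h ▸ Ideal.mem_sup_right (Ideal.mem_span_singleton_self r))
      obtain ⟨z, hz⟩ := ih _ hlt (hI.trans le_sup_left)
      let S : Set G → Set P.M := fun T =>
        {v | ∃ y, P.π y = v ∧ ∃ t ∈ T, z - r • y - t ∈ (I • ⊤ : Submodule A G)}
      obtain ⟨v, hv⟩ := hM (S '' 𝒯)
        (by
          rintro _ ⟨T, hT, rfl⟩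
          constructor
          · obtain ⟨t, ht, h3⟩ := hz T hT
            obtain ⟨y, hy, u, h4⟩ := mem_sup_span_smul h3
            exact ⟨_, u, rfl, t, ht, by rwa [sub_right_comm, h4, add_sub_cancel_right]⟩
          · rintro _ ⟨y₁, rfl, t₁, ht₁, h₁⟩ _ ⟨y₂, rfl, t₂, ht₂, h₂⟩ _ ⟨y₃, rfl, t₃, ht₃, h₃⟩
              _ ⟨θ, hθ, rfl⟩
            obtain ⟨u, hu⟩ := P.lift P θ hθ
            refine ⟨y₁ + u (y₂ - y₃), by rw [map_add, hu, map_sub], _,
              (h1 T hT).2 t₁ ht₁ t₂ ht₂ t₃ ht₃ _ ⟨u, rfl⟩, ?_⟩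
            convert add_mem h₁ (map_mem_smul_top u (sub_mem h₂ h₃)) using 1
            simp only [map_sub, map_smul, smul_add, smul_sub]
            abel)
        (by
          rintro _ ⟨T, hT, rfl⟩ _ ⟨T', hT', rfl⟩
          obtain ⟨T'', hT'', h3⟩ := h2 T hT T' hT'
          refine ⟨_, ⟨T'', hT'', rfl⟩, ?_⟩
          rintro v ⟨y, hy, t, ht, h4⟩
          exact ⟨⟨y, hy, t, (h3 ht).1, h4⟩, ⟨y, hy, t, (h3 ht).2, h4⟩⟩)
      obtain ⟨y₀, rfl⟩ := P.π_surj v
      refine ⟨z - r • y₀, fun T hT => ?_⟩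
      obtain ⟨y, hy, t, ht, h3⟩ := hv _ ⟨T, hT, rfl⟩
      refine ⟨t, ht, ?_⟩
      convert add_mem h3 (smul_mem_of_socle hrm
        (P.π_ker (y - y₀) (by rw [map_sub, hy, sub_self]))) using 1
      rw [smul_sub]
      abel
  obtain ⟨z, hz⟩ := key _ le_rfl
  refine ⟨z, fun T hT => ?_⟩
  obtain ⟨t, ht, h3⟩ := hz T hT
  rwa [sub_eq_zero.1 (P.ax.kill' h3)]

omit [IsNoetherianRing A] in
/-- Indecomposability passes from the top to the module. -/
theorem Pres.indec (P : Pres d G) [Nontrivial P.M]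
    (hM : ∀ θ : P.M →ₗ[k[X]] P.M, (∀ z, θ (P.ε z) = P.ε (θ z)) → (∀ z, θ (θ z) = θ z) →
      (∀ z, θ z = 0) ∨ ∀ z, θ z = z) : IsIndecomposable A G := by
  refine ⟨P.π_surj.nontrivial, fun U V hUV => ?_⟩
  have key : ∀ U V : Submodule A G, ∀ h : IsCompl U V,
      (∀ x, P.π (U.projection V h x) = 0) → U = ⊥ := by
    intro U V h h0
    have h1 := P.ax.pow_eq_zero (U.projection V h) fun x => P.π_ker _ (h0 x)
    rw [(Submodule.isIdempotentElem_projection h).pow_succ_eq] at h1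
    rw [← Submodule.range_projection h, h1, LinearMap.range_zero]
  obtain ⟨θ, h1, h2⟩ := P.exists_top P (U.projection V hUV)
  rcases hM θ h1 (fun z => by
    obtain ⟨x, rfl⟩ := P.π_surj z
    rw [h2, h2, Submodule.projection_apply_of_mem_left hUV
      (Submodule.projection_apply_mem hUV x)]) with h | h
  · exact Or.inl (key U V hUV fun x => by rw [← h2, h])
  · refine Or.inr (key V U hUV.symm fun x => ?_)
    have := congrArg P.π (Submodule.projection_add_projection_eq_self hUV x)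
    rwa [map_add, ← h2, h, add_eq_left] at this

end Pool.Agent.MP_9f28a9_al.NS
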