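import Pool.Agent.MP_9f28a9_al.NS.Class

set_option autoImplicit false

/-!
Maps between modules with a square zero operator, and the two consequences that are needed.
-/

namespace Pool.Agent.MP_9f28a9_al.NS

open Pool.Agent.MP_9f28a9_al Filter Polynomial

section pid
variable {D : Type} [CommRing D] {M M' : Type} [AddCommGroup M] [Module D M]
  [AddCommGroup M'] [Module D M']

/-- Divisible submodules. -/
def Dvs (Q : Submodule D M) : Prop := ∀ f : D, f ≠ 0 → ∀ q ∈ Q, ∃ q' ∈ Q, f • q' = q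

lemma Dvs.baer [IsPrincipalIdealRing D] {Q : Submodule D M} [IsDomain D] (hQ : Dvs Q) :
    Module.Baer D Q := fun I g => by
  obtain ⟨m, rfl⟩ := IsPrincipalIdealRing.principal I
  obtain rfl | h0 := eq_or_ne m 0
  · refine ⟨0, fun n hn => ?_⟩
    rw [Submodule.span_zero_singleton] at hn
    subst hn
    exact (map_zero g).symm
  obtain ⟨q, hq, hq'⟩ := hQ m h0 _ (g ⟨m, Submodule.subset_span (Set.mem_singleton _)⟩).2
  refine ⟨LinearMap.toSpanSingleton D Q ⟨q, hq⟩, fun n hn => ?_⟩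
  obtain ⟨n, rfl⟩ := Submodule.mem_span_singleton.mp hn
  have h1 : m • (⟨q, hq⟩ : Q) = g ⟨m, Submodule.subset_span (Set.mem_singleton _)⟩ :=
    Subtype.ext hq'
  rw [map_smul, LinearMap.toSpanSingleton_apply, h1, ← map_smul, SetLike.mk_smul_mk]

variable [IsDomain D] [IsPrincipalIdealRing D]

lemma map_one' (ε : M →ₗ[D] M) (hε : ∀ z, ε (ε z) = 0) (ε' : M' →ₗ[D] M')
    (hε' : ∀ z, ε' (ε' z) = 0) (x : M) (hx : ∀ f : D, f • ε x = 0 → f = 0)
    {Q : Submodule D M'} (hQ : Dvs Q) {x' : M'} (hx' : x' ∈ Q) :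
    ∃ θ : M →ₗ[D] M', (∀ z, θ (ε z) = ε' (θ z)) ∧ θ x = x' := by
  let i : D × D →ₗ[D] M :=
    (LinearMap.toSpanSingleton D M x).coprod (LinearMap.toSpanSingleton D M (ε x))
  have hi : Function.Injective i := by
    rw [injective_iff_map_eq_zero]
    rintro ⟨f, g⟩ h
    change f • x + g • ε x = 0 at h
    have h1 := congrArg ε h
    rw [map_add, map_smul, map_smul, hε, smul_zero, add_zero, map_zero] at h1
    obtain rfl := hx f h1
    rw [zero_smul, zero_add] at h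
    rw [hx g h]
    rfl
  obtain ⟨μ, hμ⟩ := hQ.baer.extension_property i hi
    ((LinearMap.toSpanSingleton D Q ⟨x', hx'⟩) ∘ₗ LinearMap.snd D D D)
  have h1 : μ x = 0 := by simpa [i] using LinearMap.congr_fun hμ (1, 0)
  have h2 : μ (ε x) = ⟨x', hx'⟩ := by simpa [i] using LinearMap.congr_fun hμ (0, 1)
  refine ⟨Q.subtype ∘ₗ μ ∘ₗ ε + ε' ∘ₗ Q.subtype ∘ₗ μ, fun z => ?_, ?_⟩
  · simp [hε, hε']
  · simp [h1, h2]

lemma map_two' (ε : M →ₗ[D] M) (x : M) (hx : ∀ (f : D) z, f • x = ε z → f = 0)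
    {Q : Submodule D M'} (hQ : Dvs Q) {x' : M'} (hx' : x' ∈ Q) :
    ∃ θ : M →ₗ[D] M', (∀ z, θ (ε z) = 0) ∧ (∀ z, θ z ∈ Q) ∧ θ x = x' := by
  let L := LinearMap.range ε
  have hi : Function.Injective (LinearMap.toSpanSingleton D (M ⧸ L) (L.mkQ x)) := by
    rw [injective_iff_map_eq_zero]
    intro f h
    obtain ⟨z, hz⟩ := (Submodule.Quotient.mk_eq_zero L).1 (h : L.mkQ (f • x) = 0)
    exact hx f z hz.symm
  obtain ⟨μ, hμ⟩ := hQ.baer.extension_property _ hi (LinearMap.toSpanSingleton D Q ⟨x', hx'⟩)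
  have h1 : μ (L.mkQ x) = ⟨x', hx'⟩ := by simpa using LinearMap.congr_fun hμ 1
  refine ⟨Q.subtype ∘ₗ μ ∘ₗ L.mkQ, fun z => ?_, fun z => (μ (L.mkQ z)).2, congrArg Subtype.val h1⟩
  have : L.mkQ (ε z) = 0 := (Submodule.Quotient.mk_eq_zero L).2 ⟨z, rfl⟩
  simp only [LinearMap.comp_apply, this, map_zero]

end pid

variable {A k : Type} [CommRing A] [Field k] [Algebra A k]
variable {d : Dat A k} {G H : Type} [AddCommGroup G] [Module A G] [AddCommGroup H] [Module A H]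

/-- Every nonzero polynomial acts invertibly on the top. -/
structure Pres.Gen (P : Pres d G) : Prop where
  tf : ∀ f : k[X], f ≠ 0 → ∀ z : P.M, f • z = 0 → z = 0
  surj : ∀ f : k[X], f ≠ 0 → ∀ z : P.M, ∃ z', f • z' = z

/-- The top contains elements of both kinds. -/
structure Pres.Rich (P : Pres d G) : Prop where
  tf : ∀ f : k[X], f ≠ 0 → ∀ z : P.M, f • z = 0 → z = 0
  kerdiv : ∀ f : k[X], f ≠ 0 → ∀ z : P.M, P.ε z = 0 → ∃ z', P.ε z' = 0 ∧ f • z' = z
  ex_a : ∃ a : P.M, P.ε a ≠ 0 ∧ ∀ f : k[X], f ≠ 0 → ∃ z, f • z = a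
  ex_b : ∃ b : P.M, P.ε b = 0 ∧ ∀ (f : k[X]) z, f • b = P.ε z → f = 0

lemma Pres.Gen.not_range {P : Pres d G} (hP : P.Gen) {x : P.M} (hx : ∀ z, x ≠ P.ε z) (f : k[X])
    (z : P.M) (h : f • x = P.ε z) : f = 0 := by
  by_contra hf
  obtain ⟨z, rfl⟩ := hP.surj f hf z
  refine hx z (sub_eq_zero.1 (hP.tf f hf _ ?_))
  rw [smul_sub, h, map_smul, sub_self]

lemma Pres.Gen.fix {P : Pres d G} (hP : P.Gen) {P' : Pres d H} (hP' : P'.Rich) (x : P.M) :
    ∃ (α : P.M →ₗ[k[X]] P'.M) (β : P'.M →ₗ[k[X]] P.M), (∀ z, α (P.ε z) = P'.ε (α z)) ∧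
      (∀ z, β (P'.ε z) = P.ε (β z)) ∧ β (α x) = x := by
  have one : ∀ x : P.M, P.ε x ≠ 0 → ∃ (α : P.M →ₗ[k[X]] P'.M) (β : P'.M →ₗ[k[X]] P.M),
      (∀ z, α (P.ε z) = P'.ε (α z)) ∧ (∀ z, β (P'.ε z) = P.ε (β z)) ∧ β (α x) = x := by
    intro x hx
    obtain ⟨a, ha, ha'⟩ := hP'.ex_a
    let Q : Submodule k[X] P'.M :=
      { carrier := {z | ∀ f : k[X], f ≠ 0 → ∃ u, f • u = z}
        add_mem' := by
          intro z z' hz hz' f hf
          obtain ⟨u, rfl⟩ := hz f hf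
          obtain ⟨u', rfl⟩ := hz' f hf
          exact ⟨u + u', smul_add _ _ _⟩
        zero_mem' := fun f _ => ⟨0, smul_zero f⟩
        smul_mem' := by
          intro g z hz f hf
          obtain ⟨u, rfl⟩ := hz f hf
          exact ⟨g • u, smul_comm _ _ _⟩ }
    have hQ : Dvs Q := by
      intro f hf z hz
      obtain ⟨u, hu⟩ := hz f hf
      refine ⟨u, fun g hg => ?_, hu⟩
      obtain ⟨v, hv⟩ := hz (f * g) (mul_ne_zero hf hg)
      refine ⟨v, sub_eq_zero.1 (hP'.tf f hf _ ?_)⟩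
      rw [smul_sub, ← mul_smul, hv, hu, sub_self]
    obtain ⟨α, h1, h2⟩ := map_one' P.ε P.εε P'.ε P'.εε x
      (fun f h => by_contra fun hf => hx (hP.tf f hf _ h)) hQ (x' := a) ha'
    obtain ⟨β, h3, h4⟩ := map_one' P'.ε P'.εε P.ε P.εε a
      (fun f h => by_contra fun hf => ha (hP'.tf f hf _ h)) (Q := ⊤)
      (fun f hf q _ => by simpa using hP.surj f hf q) (x' := x) trivial
    exact ⟨α, β, h1, h3, by rw [h2, h4]⟩
  by_cases hx : P.ε x = 0
  swap
  · exact one x hx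
  by_cases hr : ∃ z, x = P.ε z
  · obtain ⟨z, rfl⟩ := hr
    by_cases hz : P.ε z = 0
    · exact ⟨0, 0, by simp, by simp, by simp [hz]⟩
    · obtain ⟨α, β, h1, h2, h3⟩ := one z hz
      exact ⟨α, β, h1, h2, by rw [h1, h2, h3]⟩
  push Not at hr
  obtain ⟨b, hb, hb'⟩ := hP'.ex_b
  obtain ⟨α, h1, h2, h3⟩ := map_two' P.ε x (hP.not_range hr) (Q := LinearMap.ker P'.ε)
    (fun f hf q hq => hP'.kerdiv f hf q hq) (x' := b) hb
  obtain ⟨β, h4, h5, h6⟩ := map_two' P'.ε b hb' (Q := LinearMap.ker P.ε)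
    (fun f hf q hq => by
      obtain ⟨u, rfl⟩ := hP.surj f hf q
      exact ⟨u, hP.tf f hf _ (by rw [← map_smul]; exact hq), rfl⟩) (x' := x) hx
  exact ⟨α, β, fun z => (h1 z).trans (h2 z).symm, fun z => (h4 z).trans (h5 z).symm,
    by rw [h3, h6]⟩

/-- A pp inclusion that holds in a rich module holds in every generic module. -/
theorem Pres.Gen.incl [IsNoetherianRing A] {P : Pres d G} (hP : P.Gen) {P' : Pres d H}
    (hP' : P'.Rich) (φ ψ : PP A) (h : φ.sol H ⊆ ψ.sol H) : φ.sol G ⊆ ψ.sol G := by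
  let K : Module.End A G → Prop := fun v => ∀ x ∈ φ.sol G, x - v x ∈ ψ.sol G
  have hK : ∀ v v', K v → K v' → K (v' * v) := by
    intro v v' hv hv' x hx
    have := PP.sol_add ψ (hv x hx) (hv' _ (φ.sol_map v hx))
    rwa [sub_add_sub_cancel] at this
  have h1 : ∀ g : G, ∃ v, K v ∧ v g ∈ (mm A k • ⊤ : Submodule A G) := by
    intro g
    obtain ⟨α, β, hα, hβ, hg⟩ := hP.fix hP' (P.π g)
    obtain ⟨a, ha⟩ := P.lift P' α hα
    obtain ⟨b, hb⟩ := P'.lift P β hβ
    refine ⟨1 - b ∘ₗ a, fun x hx => ?_, P.π_ker _ ?_⟩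
    · simpa using ψ.sol_map b (h (φ.sol_map a hx))
    · simp [hb, ha, hg]
  have h2 : ∀ n, ∀ x ∈ (mm A k ^ n • ⊤ : Submodule A G), ∀ u : Module.End A G,
      ∃ v, K v ∧ v (u x) ∈ (mm A k ^ (n + 1) • ⊤ : Submodule A G) := by
    intro n x hx
    refine Submodule.smul_induction_on hx ?_ ?_
    · intro r hr g _ u
      obtain ⟨v, hv, hg⟩ := h1 (u g)
      refine ⟨v, hv, ?_⟩
      rw [map_smul, map_smul]
      exact smul_mem_of_socle (fun _ ha => pow_succ (mm A k) n ▸ Ideal.mul_mem_mul hr ha) hg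
    · intro x y hx hy u
      obtain ⟨v, hv, h3⟩ := hx u
      obtain ⟨v', hv', h4⟩ := hy (v * u)
      refine ⟨v' * v, hK v v' hv hv', ?_⟩
      rw [map_add, map_add]
      exact add_mem (map_mem_smul_top v' h3) h4
  intro x hx
  have h3 : ∀ n, ∃ v, K v ∧ v x ∈ (mm A k ^ n • ⊤ : Submodule A G) := by
    intro n
    induction n with
    | zero => exact ⟨1, fun y _ => by simpa using PP.sol_zero ψ G, by simp⟩
    | succ n ih =>
      obtain ⟨v, hv, h4⟩ := ih
      obtain ⟨v', hv', h5⟩ := h2 n _ h4 1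
      exact ⟨v' * v, hK v v' hv hv', h5⟩
  obtain ⟨v, hv, h4⟩ := h3 (d.s + 1)
  have := hv x hx
  rwa [P.ax.kill' h4, sub_zero] at this

lemma Ax.pow_eq_zero (hG : Ax d G) (u : Module.End A G)
    (hu : ∀ x, u x ∈ (mm A k • ⊤ : Submodule A G)) : u ^ (d.s + 1) = 0 := by
  have : ∀ n x, (u ^ n) x ∈ (mm A k ^ n • ⊤ : Submodule A G) := by
    intro n
    induction n with
    | zero => simp
    | succ n ih =>
      intro x
      rw [pow_succ u, Module.End.mul_apply]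
      refine Submodule.smul_induction_on (hu x) ?_ ?_
      · intro r hr g _
        rw [map_smul]
        exact smul_mem_of_socle (fun _ ha => pow_succ' (mm A k) n ▸ Ideal.mul_mem_mul hr ha) (ih g)
      · intro x y hx hy
        rw [map_add]
        exact add_mem hx hy
  ext x
  exact hG.kill' (this _ x)

/-- A generic module with elements of both kinds is decomposable. -/
theorem Pres.Gen.not_indecomposable [IsNoetherianRing A] {P : Pres d G} (hP : P.Gen) {a b : P.M}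
    (ha : P.ε a ≠ 0) (hb : P.ε b = 0) (hb' : ∀ z, b ≠ P.ε z) : ¬ IsIndecomposable A G := by
  rintro ⟨-, hind⟩
  let Q : Submodule k[X] P.M :=
    { carrier := {z | ∃ f g : k[X], f ≠ 0 ∧ f • z = g • b}
      add_mem' := by
        rintro z z' ⟨f, g, hf, h⟩ ⟨f', g', hf', h'⟩
        refine ⟨f * f', f' * g + f * g', mul_ne_zero hf hf', ?_⟩
        rw [smul_add, add_smul, mul_smul f', mul_smul f g', ← h, ← h', mul_smul, mul_smul,
          smul_comm f f' z]
      zero_mem' := ⟨1, 0, one_ne_zero, by simp⟩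
      smul_mem' := by
        rintro r z ⟨f, g, hf, h⟩
        exact ⟨f, r * g, hf, by rw [smul_comm, h, mul_smul]⟩ }
  have hQ : Dvs Q := by
    rintro f hf z ⟨f', g, hf', h⟩
    obtain ⟨u, rfl⟩ := hP.surj f hf z
    exact ⟨u, ⟨f' * f, g, mul_ne_zero hf' hf, by rw [mul_smul, h]⟩, rfl⟩
  obtain ⟨θ, h1, h2, h3⟩ := map_two' P.ε b (hP.not_range hb') hQ (x' := b)
    ⟨1, 1, one_ne_zero, rfl⟩
  have hid : ∀ z, θ (θ z) = θ z := by
    intro z
    obtain ⟨f, g, hf, h⟩ := h2 z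
    refine sub_eq_zero.1 (hP.tf f hf _ ?_)
    rw [smul_sub, ← map_smul, h, map_smul, h3, sub_self]
  obtain ⟨u, hu⟩ := P.lift P θ fun z => by
    obtain ⟨f, g, hf, h⟩ := h2 z
    rw [h1]
    refine (hP.tf f hf _ ?_).symm
    rw [← map_smul, h, map_smul, hb, smul_zero]
  have hnil := P.ax.pow_eq_zero (u * (1 - u)) fun x => P.π_ker _ (by simp [hu, hid])
  have hcop : IsCoprime ((X : A[X]) ^ (d.s + 1)) ((1 - X) ^ (d.s + 1)) :=
    IsCoprime.pow ⟨1, 1, by ring⟩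
  have hc : IsCompl (LinearMap.ker (aeval u ((X : A[X]) ^ (d.s + 1))))
      (LinearMap.ker (aeval u ((1 - X : A[X]) ^ (d.s + 1)))) := by
    refine ⟨disjoint_ker_aeval_of_isCoprime u hcop, codisjoint_iff.2 ?_⟩
    rw [sup_ker_aeval_eq_ker_aeval_mul_of_coprime u hcop, ← mul_pow, map_pow, map_mul, map_sub,
      aeval_X, map_one, hnil, LinearMap.ker_zero]
  have hfix : ∀ (v : Module.End A G) (x : G), P.π (v x) = P.π x → (∀ y, P.π y = 0 →
      P.π (v y) = 0) → v ^ (d.s + 1) = 0 → P.π x = 0 := by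
    intro v x hx hv h0
    have : ∀ n, P.π ((v ^ n) x) = P.π x := by
      intro n
      induction n with
      | zero => rfl
      | succ n ih =>
        have h4 := hv ((v ^ n) x - x) (by rw [map_sub, ih, sub_self])
        rw [map_sub, map_sub, sub_eq_zero, hx] at h4
        rw [pow_succ', Module.End.mul_apply, h4]
    rw [← this (d.s + 1), h0, LinearMap.zero_apply, map_zero]
  rcases hind _ _ hc with h | h
  · rw [h] at hc
    have h0 := LinearMap.ker_eq_top.1 (eq_top_of_bot_isCompl hc)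
    rw [map_pow, map_sub, aeval_X, map_one] at h0
    obtain ⟨x, hx⟩ := P.π_surj (P.ε a)
    exact ha (hx ▸ hfix _ x (by simp [hu, hx, h1]) (fun y hy => by simp [hu, hy]) h0)
  · rw [h] at hc
    have h0 := LinearMap.ker_eq_top.1 (eq_top_of_isCompl_bot hc)
    rw [map_pow, aeval_X] at h0
    obtain ⟨x, hx⟩ := P.π_surj b
    refine hb' 0 ?_
    rw [map_zero]
    exact hx ▸ hfix _ x (by rw [hu, hx, h3]) (fun y hy => by simp [hu, hy]) h0

end Pool.Agent.MP_9f28a9_al.NS
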