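import Mathlib
import Pool.Agent.MP_9f28a9_al.Main

set_option autoImplicit false

/-!
A small calculus of pp-definable relations, and reduced products.
-/

namespace Pool.Agent.MP_9f28a9_al.NS

open Pool.Agent.MP_9f28a9_al Filter

section calculus
variable {S : Type} [Ring S]

/-- Binary relations defined on all modules. -/
abbrev Rel2 (S : Type) [Ring S] : Type 1 :=
  ∀ (G : Type) [AddCommGroup G] [Module S G], G → G → Prop

/-- Unary predicates defined on all modules. -/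
abbrev Rel1 (S : Type) [Ring S] : Type 1 :=
  ∀ (G : Type) [AddCommGroup G] [Module S G], G → Prop

/-- The relation is given by a pp formula in two free variables. -/
def IsPP2 (ρ : Rel2 S) : Prop :=
  ∃ (κ σ : Type) (_ : Fintype κ) (_ : Fintype σ) (a a' : σ → S) (b : σ → κ → S),
    ∀ (G : Type) [AddCommGroup G] [Module S G] (x x' : G),
      ρ G x x' ↔ ∃ y : κ → G, ∀ e, a e • x + a' e • x' + ∑ j, b e j • y j = 0

/-- The predicate is given by a pp formula in one free variable. -/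
def IsPP1 (Φ : Rel1 S) : Prop :=
  ∃ φ : PP S, ∀ (G : Type) [AddCommGroup G] [Module S G] (x : G), Φ G x ↔ x ∈ φ.sol G

lemma IsPP2.congr {ρ ρ' : Rel2 S} (h : IsPP2 ρ)
    (hh : ∀ (G : Type) [AddCommGroup G] [Module S G] (x x' : G), ρ' G x x' ↔ ρ G x x') :
    IsPP2 ρ' := by
  obtain ⟨κ, σ, _, _, a, a', b, h⟩ := h
  exact ⟨κ, σ, inferInstance, inferInstance, a, a', b,
    fun G _ _ x x' => (hh G x x').trans (h G x x')⟩

lemma IsPP1.congr {Φ Φ' : Rel1 S} (h : IsPP1 Φ)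
    (hh : ∀ (G : Type) [AddCommGroup G] [Module S G] (x : G), Φ' G x ↔ Φ G x) : IsPP1 Φ' := by
  obtain ⟨φ, h⟩ := h
  exact ⟨φ, fun G _ _ x => (hh G x).trans (h G x)⟩

lemma isPP2_eqn (r r' : S) : IsPP2 (S := S) fun _ _ _ x x' => r • x = r' • x' := by
  refine ⟨Empty, Unit, inferInstance, inferInstance, fun _ => r, fun _ => -r', fun _ i => i.elim,
    fun G _ _ x x' => ?_⟩
  simp [add_neg_eq_zero]

/-- The master closure property. -/
lemma IsPP2.master {ρ₁ ρ₂ : Rel2 S} (h₁ : IsPP2 ρ₁) (h₂ : IsPP2 ρ₂)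
    (p₁ q₁ r₁ p₂ q₂ r₂ p₃ q₃ r₃ p₄ q₄ r₄ : S) :
    IsPP2 (S := S) fun G _ _ x x' => ∃ u : G,
      ρ₁ G (p₁ • x + q₁ • x' + r₁ • u) (p₂ • x + q₂ • x' + r₂ • u) ∧
      ρ₂ G (p₃ • x + q₃ • x' + r₃ • u) (p₄ • x + q₄ • x' + r₄ • u) := by
  obtain ⟨κ₁, σ₁, _, _, a₁, a₁', b₁, h₁⟩ := h₁
  obtain ⟨κ₂, σ₂, _, _, a₂, a₂', b₂, h₂⟩ := h₂
  refine ⟨Option (κ₁ ⊕ κ₂), σ₁ ⊕ σ₂, inferInstance, inferInstance,
    Sum.elim (fun e => a₁ e * p₁ + a₁' e * p₂) (fun e => a₂ e * p₃ + a₂' e * p₄),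
    Sum.elim (fun e => a₁ e * q₁ + a₁' e * q₂) (fun e => a₂ e * q₃ + a₂' e * q₄),
    Sum.elim
      (fun e j => j.elim (a₁ e * r₁ + a₁' e * r₂) (Sum.elim (b₁ e) (fun _ => 0)))
      (fun e j => j.elim (a₂ e * r₃ + a₂' e * r₄) (Sum.elim (fun _ => 0) (b₂ e))),
    fun G _ _ x x' => ?_⟩
  constructor
  · rintro ⟨u, hu₁, hu₂⟩
    obtain ⟨y₁, hy₁⟩ := (h₁ G _ _).1 hu₁
    obtain ⟨y₂, hy₂⟩ := (h₂ G _ _).1 hu₂
    refine ⟨fun j => j.elim u (Sum.elim y₁ y₂), ?_⟩
    rintro (e | e)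
    · rw [← hy₁ e]
      simp only [Fintype.sum_option, Fintype.sum_sum_type, Sum.elim_inl, Sum.elim_inr,
        Option.elim_none, Option.elim_some, zero_smul, Finset.sum_const_zero, add_smul, mul_smul,
        smul_add]
      abel
    · rw [← hy₂ e]
      simp only [Fintype.sum_option, Fintype.sum_sum_type, Sum.elim_inl, Sum.elim_inr,
        Option.elim_none, Option.elim_some, zero_smul, Finset.sum_const_zero, add_smul, mul_smul,
        smul_add]
      abel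
  · rintro ⟨y, hy⟩
    refine ⟨y none, (h₁ G _ _).2 ⟨fun j => y (some (Sum.inl j)), fun e => ?_⟩,
      (h₂ G _ _).2 ⟨fun j => y (some (Sum.inr j)), fun e => ?_⟩⟩
    · rw [← hy (Sum.inl e)]
      simp only [Fintype.sum_option, Fintype.sum_sum_type, Sum.elim_inl, Sum.elim_inr,
        Option.elim_none, Option.elim_some, zero_smul, Finset.sum_const_zero, add_smul, mul_smul,
        smul_add]
      abel
    · rw [← hy (Sum.inr e)]
      simp only [Fintype.sum_option, Fintype.sum_sum_type, Sum.elim_inl, Sum.elim_inr,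
        Option.elim_none, Option.elim_some, zero_smul, Finset.sum_const_zero, add_smul, mul_smul,
        smul_add]
      abel

lemma IsPP2.and {ρ₁ ρ₂ : Rel2 S} (h₁ : IsPP2 ρ₁) (h₂ : IsPP2 ρ₂) :
    IsPP2 (S := S) fun G _ _ x x' => ρ₁ G x x' ∧ ρ₂ G x x' :=
  (h₁.master h₂ 1 0 0 0 1 0 1 0 0 0 1 0).congr fun G _ _ x x' => by simp

lemma IsPP2.comp {ρ₁ ρ₂ : Rel2 S} (h₁ : IsPP2 ρ₁) (h₂ : IsPP2 ρ₂) :
    IsPP2 (S := S) fun G _ _ x x' => ∃ u, ρ₁ G x u ∧ ρ₂ G u x' :=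
  (h₁.master h₂ 1 0 0 0 0 1 0 0 1 0 1 0).congr fun G _ _ x x' => by simp

lemma IsPP2.swap {ρ : Rel2 S} (h : IsPP2 ρ) : IsPP2 (S := S) fun G _ _ x x' => ρ G x' x :=
  (h.master h 0 1 0 1 0 0 0 1 0 1 0 0).congr fun G _ _ x x' => by simp

lemma IsPP2.add {ρ₁ ρ₂ : Rel2 S} (h₁ : IsPP2 ρ₁) (h₂ : IsPP2 ρ₂) :
    IsPP2 (S := S) fun G _ _ x x' => ∃ u, ρ₁ G x u ∧ ρ₂ G x (x' - u) :=
  (h₁.master h₂ 1 0 0 0 0 1 1 0 0 0 1 (-1)).congr fun G _ _ x x' => by simp [sub_eq_add_neg]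

/-- The domain of a pp relation. -/
lemma IsPP2.dom {ρ : Rel2 S} (h : IsPP2 ρ) : IsPP1 (S := S) fun G _ _ x => ∃ u, ρ G x u := by
  obtain ⟨κ, σ, _, _, a, a', b, h⟩ := h
  let eκ := (Fintype.equivFin (Option κ)).symm
  let eσ := (Fintype.equivFin σ).symm
  refine ⟨⟨_, _, fun e => a (eσ e), fun e j => (eκ j).elim (a' (eσ e)) (b (eσ e))⟩,
    fun G _ _ x => ?_⟩
  constructor
  · rintro ⟨u, hu⟩
    obtain ⟨y, hy⟩ := (h G _ _).1 hu
    refine ⟨fun j => (eκ j).elim u y, fun e => ?_⟩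
    have := Equiv.sum_comp eκ (fun j => j.elim (a' (eσ e)) (b (eσ e)) • j.elim u y)
    dsimp only
    rw [this, ← hy (eσ e)]
    simp [Fintype.sum_option, add_assoc]
  · rintro ⟨y, hy⟩
    refine ⟨y (eκ.symm none), (h G _ _).2 ⟨fun j => y (eκ.symm (some j)), fun e => ?_⟩⟩
    have h1 := hy (eσ.symm e)
    have := Equiv.sum_comp eκ.symm
      (fun j => (eκ j).elim (a' (eσ (eσ.symm e))) (b (eσ (eσ.symm e))) • y j)
    dsimp only at h1
    rw [← this] at h1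
    simpa [Fintype.sum_option, add_assoc] using h1

/-- A unary pp predicate evaluated at a linear form. -/
lemma IsPP1.lin {Φ : Rel1 S} (h : IsPP1 Φ) (r r' : S) :
    IsPP2 (S := S) fun G _ _ x x' => Φ G (r • x + r' • x') := by
  obtain ⟨φ, h⟩ := h
  refine ⟨Fin φ.n, Fin φ.m, inferInstance, inferInstance, fun e => φ.a e * r, fun e => φ.a e * r',
    φ.b, fun G _ _ x x' => ?_⟩
  simp only [h, PP.sol, Set.mem_ofPred_eq, mul_smul, smul_add]

lemma IsPP1.smul {Φ : Rel1 S} (h : IsPP1 Φ) (r : S) :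
    IsPP1 (S := S) fun G _ _ x => Φ G (r • x) :=
  (h.lin r 0).dom.congr fun G _ _ x => by simp

lemma IsPP1.and {Φ Ψ : Rel1 S} (h₁ : IsPP1 Φ) (h₂ : IsPP1 Ψ) :
    IsPP1 (S := S) fun G _ _ x => Φ G x ∧ Ψ G x :=
  ((h₁.lin 1 0).and (h₂.lin 1 0)).dom.congr fun G _ _ x => by simp

lemma isPP1_sol (φ : PP S) : IsPP1 (S := S) fun G _ _ x => x ∈ φ.sol G :=
  ⟨φ, fun _ _ _ _ => Iff.rfl⟩

lemma isPP1_ann (r : S) : IsPP1 (S := S) fun _ _ _ x => r • x = 0 :=
  ⟨ppAnn r, fun _ _ _ x => (mem_ppAnn r x).symm⟩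

lemma isPP1_true : IsPP1 (S := S) fun _ _ _ _ => True :=
  (isPP1_ann (0 : S)).congr fun G _ _ x => by simp

lemma PP.sol_zero (φ : PP S) (G : Type) [AddCommGroup G] [Module S G] : (0 : G) ∈ φ.sol G :=
  ⟨0, fun j => by simp⟩

lemma PP.sol_add (φ : PP S) {G : Type} [AddCommGroup G] [Module S G] {x x' : G}
    (hx : x ∈ φ.sol G) (hx' : x' ∈ φ.sol G) : x + x' ∈ φ.sol G := by
  obtain ⟨y, hy⟩ := hx
  obtain ⟨y', hy'⟩ := hx'
  refine ⟨y + y', fun j => ?_⟩
  have := congrArg₂ (· + ·) (hy j) (hy' j)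
  simp only [add_zero] at this
  rw [← this]
  simp only [Pi.add_apply, smul_add, Finset.sum_add_distrib]
  abel

/-- `G` satisfies every pp inclusion that holds in `F`-almost all `N j`. -/
def Tr {J : Type} (F : Filter J) (N : J → Type) [∀ j, AddCommGroup (N j)] [∀ j, Module S (N j)]
    (G : Type) [AddCommGroup G] [Module S G] : Prop :=
  ∀ φ ψ : PP S, (∀ᶠ j in F, φ.sol (N j) ⊆ ψ.sol (N j)) → φ.sol G ⊆ ψ.sol G

variable {J : Type} {F : Filter J} {N : J → Type} [∀ j, AddCommGroup (N j)] [∀ j, Module S (N j)]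

lemma Tr.imp {G : Type} [AddCommGroup G] [Module S G] (h : Tr (S := S) F N G) {Φ Ψ : Rel1 S}
    (h₁ : IsPP1 Φ) (h₂ : IsPP1 Ψ) (hev : ∀ᶠ j in F, ∀ x, Φ (N j) x → Ψ (N j) x) (x : G)
    (hx : Φ G x) : Ψ G x := by
  obtain ⟨φ, h₁⟩ := h₁
  obtain ⟨ψ, h₂⟩ := h₂
  refine (h₂ G x).2 (h φ ψ (hev.mono fun j hj y hy => ?_) ((h₁ G x).1 hx))
  exact (h₂ _ y).1 (hj y ((h₁ _ y).2 hy))

variable (S F N) in
/-- The families that vanish almost everywhere. -/
def evZero : Submodule S (∀ j, N j) where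
  carrier := {x | ∀ᶠ j in F, x j = 0}
  add_mem' := by
    intro a b ha hb
    filter_upwards [ha, hb] with j h1 h2
    simp [h1, h2]
  zero_mem' := Eventually.of_forall fun _ => rfl
  smul_mem' := by
    intro r a ha
    filter_upwards [ha] with j h1
    simp [h1]

variable (S F N) in
/-- The reduced product. -/
abbrev RP : Type := (∀ j, N j) ⧸ evZero S F N

lemma mem_sol_RP (φ : PP S) (x : ∀ j, N j) :
    (Submodule.Quotient.mk x : RP S F N) ∈ φ.sol (RP S F N) ↔ ∀ᶠ j in F, x j ∈ φ.sol (N j) := by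
  classical
  constructor
  · rintro ⟨y, hy⟩
    choose z hz using fun i => Submodule.Quotient.mk_surjective (evZero S F N) (y i)
    have h1 : ∀ e, ∀ᶠ j in F, φ.a e • x j + ∑ i, φ.b e i • z i j = 0 := by
      intro e
      have h2 : φ.a e • x + ∑ i, φ.b e i • z i ∈ evZero S F N := by
        rw [← Submodule.Quotient.mk_eq_zero, ← hy e]
        change (evZero S F N).mkQ _ = _
        simp only [map_add, map_sum, map_smul, Submodule.mkQ_apply, hz]
      refine Eventually.mono h2 fun j hj => ?_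
      simpa [Finset.sum_apply] using hj
    exact (eventually_all.2 h1).mono fun j hj => ⟨fun i => z i j, hj⟩
  · intro h
    let z : ∀ j, Fin φ.n → N j := fun j => if hj : x j ∈ φ.sol (N j) then hj.choose else 0
    refine ⟨fun i => Submodule.Quotient.mk fun j => z j i, fun e => ?_⟩
    have h2 : φ.a e • x + ∑ i, φ.b e i • (fun j => z j i) ∈ evZero S F N := by
      refine h.mono fun j hj => ?_
      have := hj.choose_spec e
      simpa [Finset.sum_apply, z, dif_pos hj] using this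
    rw [← Submodule.Quotient.mk_eq_zero] at h2
    rw [← h2]
    change _ = (evZero S F N).mkQ _
    simp only [map_add, map_sum, map_smul, Submodule.mkQ_apply]

lemma IsPP1.iff_RP {Φ : Rel1 S} (h : IsPP1 Φ) (x : ∀ j, N j) :
    Φ (RP S F N) (Submodule.Quotient.mk x) ↔ ∀ᶠ j in F, Φ (N j) (x j) := by
  obtain ⟨φ, h⟩ := h
  simp only [h]
  exact mem_sol_RP φ x

lemma tr_RP : Tr (S := S) F N (RP S F N) := by
  intro φ ψ h y hy
  obtain ⟨x, rfl⟩ := Submodule.Quotient.mk_surjective (evZero S F N) y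
  rw [mem_sol_RP] at hy ⊢
  filter_upwards [h, hy] with j h1 h2 using h1 h2

lemma eventually_of_RP (φ ψ : PP S) (h : φ.sol (RP S F N) ⊆ ψ.sol (RP S F N)) :
    ∀ᶠ j in F, φ.sol (N j) ⊆ ψ.sol (N j) := by
  classical
  have : ∀ j, ∃ x ∈ φ.sol (N j), x ∈ ψ.sol (N j) → φ.sol (N j) ⊆ ψ.sol (N j) := by
    intro j
    by_cases hj : φ.sol (N j) ⊆ ψ.sol (N j)
    · exact ⟨0, PP.sol_zero φ _, fun _ => hj⟩
    · obtain ⟨x, h1, h2⟩ := Set.not_subset.1 hj
      exact ⟨x, h1, fun h3 => absurd h3 h2⟩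
  choose x hx hx' using this
  have h1 := (mem_sol_RP ψ x).1 (h ((mem_sol_RP φ x).2 (Eventually.of_forall hx)))
  exact h1.mono hx'

end calculus

section ideals
variable {A : Type} [CommRing A]

lemma mem_span_smul_top {n : ℕ} (r : Fin n → A) {G : Type} [AddCommGroup G] [Module A G] (x : G) :
    x ∈ (Ideal.span (Set.range r) • ⊤ : Submodule A G) ↔ ∃ y : Fin n → G, x = ∑ j, r j • y j := by
  constructor
  · intro hx
    refine Submodule.smul_induction_on hx ?_ ?_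
    · intro a ha g _
      obtain ⟨c, rfl⟩ := (Ideal.mem_span_range_iff_exists_fun).1 ha
      refine ⟨fun j => c j • g, ?_⟩
      rw [Finset.sum_smul]
      refine Finset.sum_congr rfl fun j _ => ?_
      rw [mul_comm, mul_smul]
    · rintro _ _ ⟨y, rfl⟩ ⟨y', rfl⟩
      exact ⟨y + y', by simp [Finset.sum_add_distrib]⟩
  · rintro ⟨y, rfl⟩
    exact Submodule.sum_mem _ fun j _ =>
      Submodule.smul_mem_smul (Ideal.subset_span ⟨j, rfl⟩) Submodule.mem_top

lemma exists_span_range [IsNoetherianRing A] (I : Ideal A) :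
    ∃ (n : ℕ) (r : Fin n → A), Ideal.span (Set.range r) = I :=
  Submodule.fg_iff_exists_fin_generating_family.1 (IsNoetherian.noetherian I)

lemma isPP1_mem [IsNoetherianRing A] (I : Ideal A) :
    IsPP1 (S := A) fun G _ _ x => x ∈ (I • ⊤ : Submodule A G) := by
  obtain ⟨n, r, rfl⟩ := exists_span_range I
  refine ⟨⟨1, n, fun _ => 1, fun _ j => -r j⟩, fun G _ _ x => ?_⟩
  simp only [mem_span_smul_top, PP.sol, Set.mem_ofPred_eq, one_smul, neg_smul, Finset.sum_neg_distrib,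
    add_neg_eq_zero, forall_const]

end ideals

end Pool.Agent.MP_9f28a9_al.NS
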