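import Pool.Agent.MP_9f28a9_al.NS.Cover

set_option autoImplicit false

/-!
The tops of the points: a complete discrete valuation ring mapping into its fraction field.
-/

namespace Pool.Agent.MP_9f28a9_al.NS

open Pool.Agent.MP_9f28a9_al Filter Polynomial

section laurent
open HahnSeries LaurentSeries PowerSeries

theorem laurent_LC (F : Type) [Field F] : LC F⟦X⟧ F⸨X⸩ := by
  classical
  intro 𝒯 haff hint
  let Fx : Set F⸨X⸩ → ℤ → Prop := fun T γ =>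
    ∀ x ∈ T, ∀ y ∈ T, ∀ γ' ≤ γ, x.coeff γ' = y.coeff γ'
  have hne : ∀ T ∈ 𝒯, T.Nonempty := fun T hT => (hint T hT T hT).mono Set.inter_subset_left
  choose! pt hpt using hne
  let c : ℤ → F := fun γ => if h : ∃ T ∈ 𝒯, Fx T γ then (pt h.choose).coeff γ else 0
  have hc : ∀ T ∈ 𝒯, ∀ γ, Fx T γ → ∀ x ∈ T, c γ = x.coeff γ := by
    intro T hT γ hfix x hx
    have h : ∃ T ∈ 𝒯, Fx T γ := ⟨T, hT, hfix⟩
    simp only [c, dif_pos h]
    obtain ⟨hT', hfix'⟩ := h.choose_spec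
    obtain ⟨w, hw1, hw2⟩ := hint T hT _ hT'
    rw [hfix' _ (hpt _ hT') w hw2 γ le_rfl, hfix w hw1 x hx γ le_rfl]
  have hmono : ∀ (T : Set F⸨X⸩) (γ γ' : ℤ), Fx T γ → γ' ≤ γ → Fx T γ' :=
    fun T γ γ' h hle x hx y hy γ'' h'' => h x hx y hy γ'' (h''.trans hle)
  have hwf : (Function.support c : Set ℤ).IsWF := by
    rw [Set.isWF_iff_no_descending_seq (α := ℤ)]
    intro f hf hmem
    have h0 : c (f 0) ≠ 0 := hmem 0
    have h : ∃ T ∈ 𝒯, Fx T (f 0) := by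
      by_contra hn
      exact h0 (by simp only [c, dif_neg hn])
    obtain ⟨T, hT, hfix⟩ := h
    refine Set.isWF_iff_no_descending_seq.1 (pt T).isWF_support f hf fun n => ?_
    rw [mem_support, ← hc T hT (f n) (hmono T _ _ hfix (hf.antitone (Nat.zero_le n))) _ (hpt T hT)]
    exact hmem n
  let z : F⸨X⸩ := ⟨c, hwf.isPWO⟩
  refine ⟨z, fun T hT => ?_⟩
  have hx := hpt T hT
  by_cases hδ : z - pt T = 0
  · rw [sub_eq_zero.1 hδ]; exact hx
  have hnf : ¬ Fx T (z - pt T).order := by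
    intro hfix
    have h1 : (z - pt T).coeff (z - pt T).order = 0 := by
      rw [HahnSeries.coeff_sub, sub_eq_zero]
      exact hc T hT _ hfix _ hx
    exact hδ (coeff_order_eq_zero.1 h1)
  simp only [Fx, not_forall] at hnf
  obtain ⟨x₁, h₁, x₂, h₂, γ', hle, hneq⟩ := hnf
  have hco : (x₁ - x₂).coeff γ' ≠ 0 := by
    rw [HahnSeries.coeff_sub]; exact sub_ne_zero.2 hneq
  have hb : x₁ - x₂ ≠ 0 := ne_zero_of_coeff_ne_zero hco
  have hord : (x₁ - x₂).order ≤ (z - pt T).order := (order_le_of_coeff_ne_zero hco).trans hle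
  set q := (z - pt T) / (x₁ - x₂) with hq
  have hq0 : q ≠ 0 := div_ne_zero hδ hb
  have hqo : 0 ≤ q.order := by
    have := HahnSeries.order_mul hq0 hb
    rw [hq, div_mul_cancel₀ _ hb, ← hq] at this
    omega
  have := haff T hT _ hx x₁ h₁ x₂ h₂ (PowerSeries.X ^ q.order.toNat * q.powerSeriesPart)
  rw [Algebra.smul_def, coe_algebraMap,
    X_order_mul_powerSeriesPart (Int.toNat_of_nonneg hqo), hq, div_mul_cancel₀ _ hb] at this
  rwa [add_sub_cancel] at this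

end laurent

section dvr
variable {O K : Type} [CommRing O] [Field K] [Algebra O K]

lemma lc_base (hinj : Function.Injective (algebraMap O K)) (hK : LC O K) : LC O O := by
  intro 𝒯 haff hint
  rcases 𝒯.eq_empty_or_nonempty with rfl | ⟨T₀, hT₀⟩
  · exact ⟨0, by simp⟩
  obtain ⟨z, hz⟩ := hK ((fun T => algebraMap O K '' T) '' 𝒯)
    (by
      rintro _ ⟨T, hT, rfl⟩ _ ⟨x, hx, rfl⟩ _ ⟨y, hy, rfl⟩ _ ⟨w, hw, rfl⟩ r
      exact ⟨_, haff T hT x hx y hy w hw r, by simp [Algebra.smul_def]⟩)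
    (by
      rintro _ ⟨T, hT, rfl⟩ _ ⟨T', hT', rfl⟩
      obtain ⟨x, h1, h2⟩ := hint T hT T' hT'
      exact ⟨_, ⟨x, h1, rfl⟩, ⟨x, h2, rfl⟩⟩)
  obtain ⟨z₀, -, rfl⟩ := hz _ ⟨T₀, hT₀, rfl⟩
  refine ⟨z₀, fun T hT => ?_⟩
  obtain ⟨x, hx, hxz⟩ := hz _ ⟨T, hT, rfl⟩
  rwa [← hinj hxz]

lemma dlc_prod (hO : LC O O) (hK : LC O K) :
    DLC (Set.range fun (r : O) (z : O × K) => r • z) := by
  intro 𝒯 h1 h2
  obtain ⟨a, ha⟩ := hO ((fun T => Prod.fst '' T) '' 𝒯)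
    (by
      rintro _ ⟨T, hT, rfl⟩ _ ⟨x, hx, rfl⟩ _ ⟨y, hy, rfl⟩ _ ⟨w, hw, rfl⟩ r
      exact ⟨_, (h1 T hT).2 x hx y hy w hw _ ⟨r, rfl⟩, rfl⟩)
    (by
      rintro _ ⟨T, hT, rfl⟩ _ ⟨T', hT', rfl⟩
      obtain ⟨T'', hT'', h3⟩ := h2 T hT T' hT'
      obtain ⟨x, hx⟩ := (h1 T'' hT'').1
      exact ⟨_, ⟨x, (h3 hx).1, rfl⟩, ⟨x, (h3 hx).2, rfl⟩⟩)
  obtain ⟨c, hc⟩ := hK ((fun T => {c | (a, c) ∈ T}) '' 𝒯)
    (by
      rintro _ ⟨T, hT, rfl⟩ x hx y hy w hw r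
      have := (h1 T hT).2 _ hx _ hy _ hw _ ⟨r, rfl⟩
      simpa using this)
    (by
      rintro _ ⟨T, hT, rfl⟩ _ ⟨T', hT', rfl⟩
      obtain ⟨T'', hT'', h3⟩ := h2 T hT T' hT'
      obtain ⟨⟨_, c⟩, hx, rfl⟩ := ha _ ⟨T'', hT'', rfl⟩
      exact ⟨c, (h3 hx).1, (h3 hx).2⟩)
  exact ⟨(a, c), fun T hT => hc _ ⟨T, hT, rfl⟩⟩

variable {k : Type} [Field k]

/-- All the properties of the top of the point attached to `p`. -/
def PtTop (p : k[X]) (M : Type) [AddCommGroup M] [Module k[X] M] (ε : M →ₗ[k[X]] M) : Prop :=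
  GoodTop M ε ∧ (∀ f : k[X], ¬ p ∣ f → ∀ z : M, ∃ z', f • z' = z) ∧ Nontrivial M ∧
    (∀ θ : M →ₗ[k[X]] M, (∀ z, θ (ε z) = ε (θ z)) → (∀ z, θ (θ z) = θ z) →
      (∀ z, θ z = 0) ∨ ∀ z, θ z = z) ∧ DLC (EndE ε)

theorem exists_top_of_dvr (hinj : Function.Injective (algebraMap O K)) (hK : LC O K)
    (ev : k[X] →+* O) {p : k[X]} (hp : Irreducible p) (h0 : ev p ≠ 0) (hnu : ¬ IsUnit (ev p))
    (hloc : ∀ c : K, ∃ (n : ℕ) (b : O), ev p ^ n • c = algebraMap O K b)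
    (hsep : ∀ b : O, (∀ n : ℕ, ev p ^ n ∣ b) → b = 0)
    (hu : ∀ f, ¬ p ∣ f → IsUnit (ev f))
    (hres : ∀ b b' : O, ¬ ev p ∣ b → ∃ f, ev p ∣ b' - ev f * b) :
    ∃ (M : Type) (_ : AddCommGroup M) (_ : Module k[X] M) (ε : M →ₗ[k[X]] M),
      (∀ z, ε (ε z) = 0) ∧ PtTop p M ε := by
  have : IsDomain O := hinj.isDomain _
  let _ : Module k[X] (O × K) := Module.compHom _ ev
  have hs : ∀ (f : k[X]) (z : O × K), f • z = (ev f * z.1, algebraMap O K (ev f) * z.2) :=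
    fun f z => Prod.ext rfl (Algebra.smul_def _ _)
  let ε : (O × K) →ₗ[k[X]] (O × K) :=
    { toFun := fun z => (0, algebraMap O K z.1)
      map_add' := fun z z' => by simp
      map_smul' := fun f z => by simp [hs] }
  have hε : ∀ z, ε z = (0, algebraMap O K z.1) := fun _ => rfl
  have hfac : ∀ f : k[X], f ≠ 0 → ∃ (n : ℕ) (u : O), IsUnit u ∧ ev f = ev p ^ n * u := by
    intro f hf
    obtain ⟨n, g, hg, rfl⟩ := WfDvdMonoid.max_power_factor hf hp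
    exact ⟨n, ev g, hu g hg, by rw [map_mul, map_pow]⟩
  have hne : ∀ f : k[X], f ≠ 0 → ev f ≠ 0 := by
    intro f hf
    obtain ⟨n, u, h1, h2⟩ := hfac f hf
    exact h2 ▸ mul_ne_zero (pow_ne_zero _ h0) h1.ne_zero
  have hne' : ∀ b : O, b ≠ 0 → algebraMap O K b ≠ 0 := fun b => (map_ne_zero_iff _ hinj).2
  have tf : ∀ f : k[X], f ≠ 0 → ∀ z : O × K, f • z = 0 → z = 0 := by
    intro f hf z hz
    rw [hs, Prod.mk_eq_zero, mul_eq_zero, mul_eq_zero] at hz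
    exact Prod.ext (hz.1.resolve_left (hne f hf)) (hz.2.resolve_left (hne' _ (hne f hf)))
  have hker : ∀ z : O × K, ε z = 0 → z.1 = 0 := fun z hz =>
    (map_eq_zero_iff _ hinj).1 (congrArg Prod.snd hz)
  have hdvd : ∀ (f : k[X]) (x : O × K), (∃ u, ε x = f • ε u) ↔ ev f ∣ x.1 := by
    intro f x
    simp only [hs, hε, mul_zero, Prod.mk.injEq, true_and, ← map_mul, hinj.eq_iff]
    exact ⟨fun ⟨u, hu⟩ => ⟨u.1, hu⟩, fun ⟨u, hu⟩ => ⟨(u, 0), hu⟩⟩
  refine ⟨O × K, inferInstance, inferInstance, ε, fun z => by simp [hε], ⟨tf, ?_, ?_⟩, ?_,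
    inferInstance, no_idem ε p tf ?_ ?_ ?_, (dlc_prod (lc_base hinj hK) hK).mono ?_⟩
  · intro f hf z hz
    refine ⟨(0, z.2 / algebraMap O K (ev f)), by simp [hε], ?_⟩
    rw [hs, mul_div_cancel₀ _ (hne' _ (hne f hf)), mul_zero, ← hker z hz]
  · refine ⟨fun n => (ev p ^ n, 0), fun n => (0, (algebraMap O K (ev p) ^ n)⁻¹),
      fun n h => pow_ne_zero n h0 (hker _ h), fun n => by simp [hε], fun f hf => ?_⟩
    obtain ⟨j, u, ⟨u, rfl⟩, h2⟩ := hfac f hf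
    constructor
    · filter_upwards [eventually_ge_atTop j] with n hn
      obtain ⟨n, rfl⟩ := Nat.exists_eq_add_of_le hn
      refine ⟨(↑u⁻¹ * ev p ^ n, 0), ?_⟩
      rw [hs, h2, mul_zero, mul_assoc, Units.mul_inv_cancel_left, pow_add]
    · filter_upwards [eventually_gt_atTop j] with n hn z hz
      obtain ⟨n, rfl⟩ := Nat.exists_eq_add_of_lt hn
      have h3 := congrArg Prod.snd hz
      simp only [hs, hε] at h3
      rw [mul_inv_eq_iff_eq_mul₀ (pow_ne_zero _ (hne' _ h0)), ← map_pow, ← map_mul,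
        hinj.eq_iff, h2, add_assoc, pow_add, mul_left_comm] at h3
      have h4 := mul_left_cancel₀ (pow_ne_zero j h0) h3
      exact hnu (isUnit_of_dvd_unit ⟨z.1 * ev p ^ n, by rw [h4]; ring⟩ u.isUnit)
  · intro f hf z
    obtain ⟨u, hu⟩ := hu f hf
    refine ⟨(↑u⁻¹ * z.1, algebraMap O K ↑u⁻¹ * z.2), ?_⟩
    rw [hs, ← hu, Units.mul_inv_cancel_left, ← mul_assoc, ← map_mul, Units.mul_inv, map_one,
      one_mul]
  · intro x hx z
    obtain ⟨f, u, hf⟩ := hres x.1 z.1 fun h => let ⟨u, hu⟩ := (hdvd p x).2 h; hx u hu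
    refine ⟨f, (u, 0), ?_⟩
    simp only [hs, hε, mul_zero, Prod.mk_add_mk, add_zero, ← map_mul, ← map_add, ← hf,
      add_sub_cancel]
  · intro x hx
    rw [hε, hsep x.1 fun n => map_pow ev p n ▸ (hdvd _ x).1 (hx n), map_zero]
    rfl
  · intro z hz
    obtain ⟨n, b, hb⟩ := hloc z.2
    refine ⟨p ^ n, (b, 0), pow_ne_zero _ hp.ne_zero, ?_⟩
    rw [hs, hε, hker z hz, mul_zero, ← hb, Algebra.smul_def, map_pow ev]
  · rintro _ ⟨r, rfl⟩
    refine ⟨⟨⟨fun z => r • z, smul_add r⟩, fun f z => smul_comm r (ev f) z⟩, fun z => ?_, rfl⟩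
    simp [hε, Algebra.smul_def]

end dvr

open LaurentSeries in
theorem exists_top {k : Type} [Field k] {p : k[X]} (hp : Irreducible p) (hs : p.Separable) :
    ∃ (M : Type) (_ : AddCommGroup M) (_ : Module k[X] M) (ε : M →ₗ[k[X]] M),
      (∀ z, ε (ε z) = 0) ∧ PtTop p M ε := by
  have : Fact (Irreducible p) := ⟨hp⟩
  let F := AdjoinRoot p
  let y : PowerSeries F := PowerSeries.C (AdjoinRoot.root p) + PowerSeries.X
  let φ : k →+* PowerSeries F := PowerSeries.C.comp (AdjoinRoot.of p)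
  let ev : k[X] →+* PowerSeries F := eval₂RingHom φ y
  have hcc : ∀ f, PowerSeries.constantCoeff (ev f) = AdjoinRoot.mk p f := by
    intro f
    have : PowerSeries.constantCoeff.comp ev = AdjoinRoot.mk p := by
      ext a
      · simp only [ev, φ, RingHom.comp_apply, coe_eval₂RingHom, eval₂_C,
          PowerSeries.constantCoeff_C]
        rfl
      · simp only [ev, y, RingHom.comp_apply, coe_eval₂RingHom, eval₂_X, map_add,
          PowerSeries.constantCoeff_C, PowerSeries.constantCoeff_X, add_zero]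
        rfl
    exact RingHom.congr_fun this f
  have hC : ∀ f : k[X], (f.map φ).eval (PowerSeries.C (AdjoinRoot.root p)) =
      PowerSeries.C (AdjoinRoot.mk p f) := by
    intro f
    rw [eval_map, ← hom_eval₂, ← AdjoinRoot.aeval_eq, aeval_def]
    rfl
  have hu : ∀ f, ¬ p ∣ f → IsUnit (ev f) := fun f hf => by
    rw [PowerSeries.isUnit_iff_constantCoeff, hcc]
    exact Ne.isUnit fun h => hf (AdjoinRoot.mk_eq_zero.1 h)
  have hX : Associated PowerSeries.X (ev p) := by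
    obtain ⟨c, hc⟩ := (p.map φ).binomExpansion (PowerSeries.C (AdjoinRoot.root p)) PowerSeries.X
    rw [derivative_map, hC, hC, eval_map, AdjoinRoot.mk_self, map_zero, zero_add] at hc
    have h1 : IsUnit (PowerSeries.C (AdjoinRoot.mk p p.derivative) + c * PowerSeries.X) := by
      rw [PowerSeries.isUnit_iff_constantCoeff]
      simpa [AdjoinRoot.mk_eq_zero] using
        fun h => hp.not_isUnit (hs.isUnit_of_dvd' dvd_rfl h)
    obtain ⟨u, hu⟩ := h1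
    exact ⟨u, by rw [hu]; change _ = eval₂ φ y p; rw [hc]; ring⟩
  refine exists_top_of_dvr (K := F⸨X⸩) (IsFractionRing.injective _ _) (laurent_LC F) ev hp
    (hX.ne_zero_iff.1 PowerSeries.X_ne_zero)
    (fun h => PowerSeries.X_prime.not_isUnit (hX.isUnit_iff.2 h)) (fun c => ?_) (fun b hb => ?_)
    hu fun b b' hb => ?_
  · obtain ⟨⟨b, _, n, rfl⟩, h⟩ :=
      IsLocalization.surj (Submonoid.powers (PowerSeries.X : PowerSeries F)) c
    obtain ⟨u, hu⟩ := hX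
    refine ⟨n, u ^ n * b, ?_⟩
    rw [← hu, map_mul, ← h, Algebra.smul_def, mul_pow, map_mul]
    ring
  · ext n
    exact PowerSeries.X_pow_dvd_iff.1 ((hX.pow_pow.dvd).trans (hb (n + 1))) n (Nat.lt_succ_self n)
  · rw [← hX.dvd_iff_dvd_left, PowerSeries.X_dvd_iff] at hb
    obtain ⟨f, hf⟩ := AdjoinRoot.mk_surjective
      (PowerSeries.constantCoeff b' / PowerSeries.constantCoeff b)
    refine ⟨f, ?_⟩
    rw [← hX.dvd_iff_dvd_left, PowerSeries.X_dvd_iff, map_sub, map_mul, hcc, hf,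
      div_mul_cancel₀ _ hb, sub_self]

end Pool.Agent.MP_9f28a9_al.NS
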